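import Mathlib

/-! Counting pairs of fractions with small differences in residue classes. -/

set_option autoImplicit false

open Finset

namespace Pool.Agent.D0H77.EA

/-- nonzero integers of absolute value at most `M` -/
noncomputable def ZZ (M : ℕ) : Finset ℤ := (Finset.Icc (-(M : ℤ)) M).erase 0

lemma mem_ZZ {M : ℕ} {m : ℤ} : m ∈ ZZ M ↔ m ≠ 0 ∧ |m| ≤ M := by
  unfold ZZ
  rw [Finset.mem_erase, Finset.mem_Icc, abs_le]

lemma sum_inv_int (M : ℕ) : ∑ m ∈ ZZ M, 1 / |(m : ℝ)| ≤ 2 * (1 + Real.log M) := by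
  classical
  obtain ⟨A, hA⟩ : ∃ A, A = (Finset.Icc 1 M).image (fun n : ℕ => (n : ℤ)) := ⟨_, rfl⟩
  obtain ⟨B, hB⟩ : ∃ B, B = (Finset.Icc 1 M).image (fun n : ℕ => -(n : ℤ)) := ⟨_, rfl⟩
  have hsub : ZZ M ⊆ A ∪ B := by
    intro m hm
    rw [mem_ZZ] at hm
    rw [Finset.mem_union, hA, hB, Finset.mem_image, Finset.mem_image]
    have h1 := hm.2
    rcases lt_or_gt_of_ne hm.1 with h | h
    · right
      refine ⟨m.natAbs, ?_, by omega⟩
      rw [Finset.mem_Icc]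
      rw [abs_of_neg h] at h1
      omega
    · left
      refine ⟨m.natAbs, ?_, by omega⟩
      rw [Finset.mem_Icc]
      rw [abs_of_pos h] at h1
      omega
  have hh : ∑ n ∈ Finset.Icc 1 M, 1 / (n : ℝ) ≤ 1 + Real.log M := by
    have h1 := harmonic_le_one_add_log M
    rw [harmonic_eq_sum_Icc] at h1
    push_cast at h1
    simpa [one_div] using h1
  have hA1 : ∑ m ∈ A, 1 / |(m : ℝ)| ≤ 1 + Real.log M := by
    rw [hA, Finset.sum_image (fun a _ b _ h => by simpa using h)]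
    refine le_trans (le_of_eq ?_) hh
    refine Finset.sum_congr rfl fun n _ => ?_
    push_cast
    rw [abs_of_nonneg (Nat.cast_nonneg n)]
  have hB1 : ∑ m ∈ B, 1 / |(m : ℝ)| ≤ 1 + Real.log M := by
    rw [hB, Finset.sum_image (fun a _ b _ h => by simpa using h)]
    refine le_trans (le_of_eq ?_) hh
    refine Finset.sum_congr rfl fun n _ => ?_
    push_cast
    rw [abs_neg, abs_of_nonneg (Nat.cast_nonneg n)]
  have h1 : ∑ m ∈ ZZ M, 1 / |(m : ℝ)| ≤ ∑ m ∈ A ∪ B, 1 / |(m : ℝ)| :=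
    Finset.sum_le_sum_of_subset_of_nonneg hsub fun _ _ _ => by positivity
  have h2 := Finset.sum_union_inter (s₁ := A) (s₂ := B) (f := fun m : ℤ => 1 / |(m : ℝ)|)
  have h3 : 0 ≤ ∑ m ∈ A ∩ B, 1 / |(m : ℝ)| := Finset.sum_nonneg fun _ _ => by positivity
  linarith

lemma inner_sum (M d : ℕ) (hd : 1 ≤ d) (m : ℤ) (hm : m ∈ ZZ M) :
    ∑ m' ∈ ZZ M, (if m ≠ m' ∧ (d : ℤ) ∣ m - m' then 1 / |((m - m' : ℤ) : ℝ)| else 0) ≤
      2 * (1 + Real.log ((2 * M : ℕ) : ℝ)) / d := by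
  classical
  have hd0 : (0 : ℝ) < d := by exact_mod_cast hd
  have hdZ : (0 : ℤ) < d := by exact_mod_cast hd
  rw [← Finset.sum_filter]
  obtain ⟨F, hF⟩ : ∃ F, F = (ZZ M).filter (fun m' => m ≠ m' ∧ (d : ℤ) ∣ m - m') := ⟨_, rfl⟩
  rw [← hF]
  have hmF : ∀ m' ∈ F, m' ∈ ZZ M ∧ m ≠ m' ∧ (d : ℤ) ∣ m - m' := by
    intro m' h
    rw [hF, Finset.mem_filter] at h
    exact ⟨h.1, h.2⟩
  have hinj : Set.InjOn (fun m' : ℤ => (m - m') / (d : ℤ)) (F : Set ℤ) := by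
    intro a ha b hb hab
    have h1 := Int.mul_ediv_cancel' (hmF a ha).2.2
    have h2 := Int.mul_ediv_cancel' (hmF b hb).2.2
    simp only at hab
    rw [hab] at h1
    omega
  have e1 : ∑ m' ∈ F, 1 / |((m - m' : ℤ) : ℝ)| =
      ∑ k ∈ F.image (fun m' : ℤ => (m - m') / (d : ℤ)), 1 / |(k : ℝ)| / d := by
    rw [Finset.sum_image (fun a ha b hb h => hinj ha hb h)]
    refine Finset.sum_congr rfl fun m' hm' => ?_
    have h1 := Int.mul_ediv_cancel' (hmF m' hm').2.2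
    obtain ⟨k, hk⟩ : ∃ k : ℤ, k = (m - m') / (d : ℤ) := ⟨_, rfl⟩
    rw [← hk] at h1 ⊢
    rw [← h1]
    push_cast
    rw [abs_mul, abs_of_pos hd0]
    field_simp
  rw [e1]
  have hsub : F.image (fun m' : ℤ => (m - m') / (d : ℤ)) ⊆ ZZ (2 * M) := by
    intro k hk
    rw [Finset.mem_image] at hk
    obtain ⟨m', hm', rfl⟩ := hk
    obtain ⟨g1, g2, g3⟩ := hmF m' hm'
    have h1 := Int.mul_ediv_cancel' g3
    obtain ⟨k, hk⟩ : ∃ k : ℤ, k = (m - m') / (d : ℤ) := ⟨_, rfl⟩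
    rw [← hk] at h1 ⊢
    rw [mem_ZZ] at hm g1 ⊢
    have hk0 : k ≠ 0 := by
      rintro rfl
      rw [mul_zero] at h1
      exact g2 (by omega)
    refine ⟨hk0, ?_⟩
    have h2 : |m - m'| ≤ 2 * M := by
      have := abs_sub m m'
      have := hm.2
      have := g1.2
      linarith
    rw [← h1, abs_mul, abs_of_pos hdZ] at h2
    have h3 : |k| ≤ d * |k| := le_mul_of_one_le_left (abs_nonneg _) (by omega)
    push_cast
    linarith
  calc ∑ k ∈ F.image (fun m' : ℤ => (m - m') / (d : ℤ)), 1 / |(k : ℝ)| / d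
      ≤ ∑ k ∈ ZZ (2 * M), 1 / |(k : ℝ)| / d :=
        Finset.sum_le_sum_of_subset_of_nonneg hsub fun _ _ _ => by positivity
    _ = (∑ k ∈ ZZ (2 * M), 1 / |(k : ℝ)|) / d := by rw [Finset.sum_div]
    _ ≤ _ := by
        apply div_le_div_of_nonneg_right _ hd0.le
        exact sum_inv_int (2 * M)

lemma pair_sum (M d : ℕ) (hd : 1 ≤ d) :
    ∑ m ∈ ZZ M, ∑ m' ∈ ZZ M, (if m ≠ m' ∧ (d : ℤ) ∣ m - m' then 1 / (|(m : ℝ)| * |(m' : ℝ)|) else 0) ≤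
      2 * ((2 * (1 + Real.log M)) * (2 * (1 + Real.log ((2 * M : ℕ) : ℝ)) / d)) := by
  classical
  have hd0 : (0 : ℝ) < d := by exact_mod_cast hd
  obtain ⟨c, hc⟩ : ∃ c : ℤ → ℤ → ℝ, c = fun m m' =>
    (if m ≠ m' ∧ (d : ℤ) ∣ m - m' then 1 / |((m - m' : ℤ) : ℝ)| else 0) := ⟨_, rfl⟩
  have hcsymm : ∀ m m', c m m' = c m' m := by
    intro m m'
    rw [hc]
    simp only
    have e1 : (m ≠ m' ∧ (d : ℤ) ∣ m - m') ↔ (m' ≠ m ∧ (d : ℤ) ∣ m' - m) := by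
      rw [ne_comm, ← Int.dvd_neg, neg_sub]
    have e2 : |((m - m' : ℤ) : ℝ)| = |((m' - m : ℤ) : ℝ)| := by
      push_cast
      exact abs_sub_comm _ _
    by_cases h : m ≠ m' ∧ (d : ℤ) ∣ m - m'
    · rw [if_pos h, if_pos (e1.1 h), e2]
    · rw [if_neg h, if_neg (fun h' => h (e1.2 h'))]
  have h1 : ∀ m ∈ ZZ M, ∀ m' ∈ ZZ M,
      (if m ≠ m' ∧ (d : ℤ) ∣ m - m' then 1 / (|(m : ℝ)| * |(m' : ℝ)|) else 0) ≤
        1 / |(m : ℝ)| * c m m' + 1 / |(m' : ℝ)| * c m m' := by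
    intro m hm m' hm'
    rw [mem_ZZ] at hm hm'
    rw [hc]
    simp only
    by_cases h : m ≠ m' ∧ (d : ℤ) ∣ m - m'
    · rw [if_pos h, if_pos h]
      have a1 : 0 < |(m : ℝ)| := abs_pos.2 (by exact_mod_cast hm.1)
      have a2 : 0 < |(m' : ℝ)| := abs_pos.2 (by exact_mod_cast hm'.1)
      have a3 : 0 < |((m - m' : ℤ) : ℝ)| := abs_pos.2 (by
        have : m - m' ≠ 0 := sub_ne_zero.2 h.1
        exact_mod_cast this)
      have a4 : |((m - m' : ℤ) : ℝ)| ≤ |(m : ℝ)| + |(m' : ℝ)| := by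
        push_cast
        exact abs_sub _ _
      have e1 : 1 / |(m : ℝ)| * (1 / |((m - m' : ℤ) : ℝ)|) + 1 / |(m' : ℝ)| * (1 / |((m - m' : ℤ) : ℝ)|) =
          (|(m : ℝ)| + |(m' : ℝ)|) / |((m - m' : ℤ) : ℝ)| * (1 / (|(m : ℝ)| * |(m' : ℝ)|)) := by
        field_simp
        ring
      rw [e1]
      have e2 : 1 ≤ (|(m : ℝ)| + |(m' : ℝ)|) / |((m - m' : ℤ) : ℝ)| := by
        rw [le_div_iff₀ a3]; linarith
      exact le_mul_of_one_le_left (by positivity) e2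
    · rw [if_neg h, if_neg h]
      simp
  have h2 : ∑ m ∈ ZZ M, ∑ m' ∈ ZZ M, 1 / |(m : ℝ)| * c m m' ≤
      (2 * (1 + Real.log M)) * (2 * (1 + Real.log ((2 * M : ℕ) : ℝ)) / d) := by
    calc _ = ∑ m ∈ ZZ M, 1 / |(m : ℝ)| * ∑ m' ∈ ZZ M, c m m' :=
          Finset.sum_congr rfl fun m _ => by rw [Finset.mul_sum]
      _ ≤ ∑ m ∈ ZZ M, 1 / |(m : ℝ)| * (2 * (1 + Real.log ((2 * M : ℕ) : ℝ)) / d) := by
          refine Finset.sum_le_sum fun m hm => mul_le_mul_of_nonneg_left ?_ (by positivity)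
          rw [hc]
          exact inner_sum M d hd m hm
      _ = (∑ m ∈ ZZ M, 1 / |(m : ℝ)|) * (2 * (1 + Real.log ((2 * M : ℕ) : ℝ)) / d) := by
          rw [Finset.sum_mul]
      _ ≤ _ := by
          refine mul_le_mul_of_nonneg_right (sum_inv_int M) ?_
          have : 0 ≤ Real.log ((2 * M : ℕ) : ℝ) := Real.log_natCast_nonneg _
          positivity
  have h3 : ∑ m ∈ ZZ M, ∑ m' ∈ ZZ M, 1 / |(m' : ℝ)| * c m m' =
      ∑ m ∈ ZZ M, ∑ m' ∈ ZZ M, 1 / |(m : ℝ)| * c m m' := by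
    rw [Finset.sum_comm]
    refine Finset.sum_congr rfl fun m _ => Finset.sum_congr rfl fun m' _ => ?_
    rw [hcsymm]
  calc _ ≤ ∑ m ∈ ZZ M, ∑ m' ∈ ZZ M, (1 / |(m : ℝ)| * c m m' + 1 / |(m' : ℝ)| * c m m') :=
        Finset.sum_le_sum fun m hm => Finset.sum_le_sum fun m' hm' => h1 m hm m' hm'
    _ = ∑ m ∈ ZZ M, ∑ m' ∈ ZZ M, 1 / |(m : ℝ)| * c m m' +
        ∑ m ∈ ZZ M, ∑ m' ∈ ZZ M, 1 / |(m' : ℝ)| * c m m' := by
        rw [← Finset.sum_add_distrib]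
        refine Finset.sum_congr rfl fun m _ => ?_
        rw [Finset.sum_add_distrib]
    _ ≤ _ := by rw [h3]; linarith

/-- the weighted number of pairs of fractions which are congruent modulo `d` -/
theorem cnt (X D d : ℕ) (hd : 1 ≤ d) (P : Finset ℕ) (hP : ∀ p ∈ P, 1 ≤ p ∧ p ≤ X)
    (hD : ∀ n : ℕ, 1 ≤ n → n ≤ X ^ 2 → n.divisors.card ≤ D) (H : ℝ) (hH : 0 ≤ H)
    (v : ℕ × ℕ → ℝ) (hv0 : ∀ a ∈ P.offDiag, 0 ≤ v a) (hv1 : ∀ a ∈ P.offDiag, v a ≤ H / a.2)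
    (hv2 : ∀ a ∈ P.offDiag, v a ≤ 1 / |(a.1 : ℝ) - a.2|) :
    ∑ a ∈ P.offDiag, ∑ b ∈ P.offDiag,
      (if (d : ℤ) ∣ (a.1 : ℤ) * b.2 - (b.1 : ℤ) * a.2 then v a * v b else 0) ≤
      (D : ℝ) ^ 2 * (H * (2 * (1 + Real.log ((X ^ 2 : ℕ) : ℝ))) +
        (X : ℝ) ^ 2 * (2 * ((2 * (1 + Real.log ((X ^ 2 : ℕ) : ℝ))) *
          (2 * (1 + Real.log ((2 * X ^ 2 : ℕ) : ℝ)) / d)))) := by
  classical
  obtain ⟨Q, hQ⟩ : ∃ Q, Q = P.offDiag := ⟨_, rfl⟩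
  rw [← hQ] at hv0 hv1 hv2 ⊢
  have hmQ : ∀ a ∈ Q, 1 ≤ a.1 ∧ a.1 ≤ X ∧ 1 ≤ a.2 ∧ a.2 ≤ X ∧ a.1 ≠ a.2 := by
    intro a ha
    rw [hQ, Finset.mem_offDiag] at ha
    exact ⟨(hP _ ha.1).1, (hP _ ha.1).2, (hP _ ha.2.1).1, (hP _ ha.2.1).2, ha.2.2⟩
  obtain ⟨g, hg⟩ : ∃ g : (ℕ × ℕ) × (ℕ × ℕ) → ℤ × ℤ, g = fun x =>
    (((x.1.1 : ℤ) - x.1.2) * x.2.2, ((x.2.1 : ℤ) - x.2.2) * x.1.2) := ⟨_, rfl⟩
  obtain ⟨G, hG⟩ : ∃ G : ℤ × ℤ → ℝ, G = fun y => (if y.1 = y.2 then H / |(y.1 : ℝ)| else 0) +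
    (X : ℝ) ^ 2 * (if y.1 ≠ y.2 ∧ (d : ℤ) ∣ y.1 - y.2 then 1 / (|(y.1 : ℝ)| * |(y.2 : ℝ)|) else 0) :=
    ⟨_, rfl⟩
  have hG0 : ∀ y, 0 ≤ G y := by
    intro y
    rw [hG]
    simp only
    split_ifs <;> positivity
  have hsingle : ∀ a ∈ Q, ∀ b ∈ Q, ((a.1 : ℤ) - a.2) * b.2 ∈ ZZ (X ^ 2) := by
    intro a ha b hb
    obtain ⟨a1, a2, a3, a4, a5⟩ := hmQ a ha
    obtain ⟨b1, b2, b3, b4, b5⟩ := hmQ b hb
    rw [mem_ZZ]
    constructor
    · apply mul_ne_zero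
      · intro h; exact a5 (by omega)
      · omega
    · rw [abs_mul]
      have h1 : |(a.1 : ℤ) - a.2| ≤ X := by rw [abs_le]; constructor <;> omega
      have h2 : |(b.2 : ℤ)| ≤ X := by rw [abs_le]; constructor <;> omega
      calc |(a.1 : ℤ) - a.2| * |(b.2 : ℤ)| ≤ X * X :=
            mul_le_mul h1 h2 (abs_nonneg _) (by positivity)
        _ = ((X ^ 2 : ℕ) : ℤ) := by push_cast; ring
  have hmaps : ∀ x ∈ Q ×ˢ Q, g x ∈ ZZ (X ^ 2) ×ˢ ZZ (X ^ 2) := by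
    intro x hx
    rw [Finset.mem_product] at hx ⊢
    rw [hg]
    exact ⟨hsingle _ hx.1 _ hx.2, hsingle _ hx.2 _ hx.1⟩
  have hFG : ∀ x ∈ Q ×ˢ Q, (if (d : ℤ) ∣ (x.1.1 : ℤ) * x.2.2 - (x.2.1 : ℤ) * x.1.2 then
      v x.1 * v x.2 else 0) ≤ G (g x) := by
    intro x hx
    have hx' := hx
    rw [Finset.mem_product] at hx
    by_cases hc : (d : ℤ) ∣ (x.1.1 : ℤ) * x.2.2 - (x.2.1 : ℤ) * x.1.2
    · rw [if_pos hc]
      obtain ⟨a1, a2, a3, a4, a5⟩ := hmQ x.1 hx.1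
      obtain ⟨b1, b2, b3, b4, b5⟩ := hmQ x.2 hx.2
      have v1 := hv0 _ hx.1
      have v2 := hv0 _ hx.2
      have w1 := hv2 _ hx.1
      have w2 := hv2 _ hx.2
      have w3 := hv1 _ hx.2
      have p1 : (0 : ℝ) < x.1.2 := by exact_mod_cast a3
      have p2 : (0 : ℝ) < x.2.2 := by exact_mod_cast b3
      have p3 : (0 : ℝ) < |(x.1.1 : ℝ) - x.1.2| := abs_pos.2 (sub_ne_zero.2 (by exact_mod_cast a5))
      have p4 : (0 : ℝ) < |(x.2.1 : ℝ) - x.2.2| := abs_pos.2 (sub_ne_zero.2 (by exact_mod_cast b5))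
      have r1 : |((((x.1.1 : ℤ) - x.1.2) * x.2.2 : ℤ) : ℝ)| = |(x.1.1 : ℝ) - x.1.2| * x.2.2 := by
        push_cast
        rw [abs_mul, abs_of_pos p2]
      have r2 : |((((x.2.1 : ℤ) - x.2.2) * x.1.2 : ℤ) : ℝ)| = |(x.2.1 : ℝ) - x.2.2| * x.1.2 := by
        push_cast
        rw [abs_mul, abs_of_pos p1]
      rw [hG, hg]
      simp only
      by_cases he : ((x.1.1 : ℤ) - x.1.2) * x.2.2 = ((x.2.1 : ℤ) - x.2.2) * x.1.2
      · rw [if_pos he]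
        have : 0 ≤ (X : ℝ) ^ 2 * (if ((x.1.1 : ℤ) - x.1.2) * x.2.2 ≠ ((x.2.1 : ℤ) - x.2.2) * x.1.2 ∧
            (d : ℤ) ∣ ((x.1.1 : ℤ) - x.1.2) * x.2.2 - ((x.2.1 : ℤ) - x.2.2) * x.1.2 then
            1 / (|((((x.1.1 : ℤ) - x.1.2) * x.2.2 : ℤ) : ℝ)| *
              |((((x.2.1 : ℤ) - x.2.2) * x.1.2 : ℤ) : ℝ)|) else 0) := by
          split_ifs <;> positivity
        refine le_trans ?_ (le_add_of_nonneg_right this)
        rw [r1]
        calc v x.1 * v x.2 ≤ (1 / |(x.1.1 : ℝ) - x.1.2|) * (H / x.2.2) :=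
              mul_le_mul w1 w3 v2 (by positivity)
          _ = _ := by field_simp
      · rw [if_neg he, zero_add]
        have hdv : (d : ℤ) ∣ ((x.1.1 : ℤ) - x.1.2) * x.2.2 - ((x.2.1 : ℤ) - x.2.2) * x.1.2 := by
          have e1 : ((x.1.1 : ℤ) - x.1.2) * x.2.2 - ((x.2.1 : ℤ) - x.2.2) * x.1.2 =
            (x.1.1 : ℤ) * x.2.2 - (x.2.1 : ℤ) * x.1.2 := by ring
          rw [e1]; exact hc
        rw [if_pos ⟨he, hdv⟩, r1, r2]
        have hX1 : (x.1.2 : ℝ) ≤ X := by exact_mod_cast a4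
        have hX2 : (x.2.2 : ℝ) ≤ X := by exact_mod_cast b4
        calc v x.1 * v x.2 ≤ (1 / |(x.1.1 : ℝ) - x.1.2|) * (1 / |(x.2.1 : ℝ) - x.2.2|) :=
              mul_le_mul w1 w2 v2 (by positivity)
          _ = ((x.1.2 : ℝ) * x.2.2) * (1 / (|(x.1.1 : ℝ) - x.1.2| * x.2.2 *
                (|(x.2.1 : ℝ) - x.2.2| * x.1.2))) := by field_simp
          _ ≤ (X : ℝ) ^ 2 * (1 / (|(x.1.1 : ℝ) - x.1.2| * x.2.2 *
                (|(x.2.1 : ℝ) - x.2.2| * x.1.2))) := by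
              refine mul_le_mul_of_nonneg_right ?_ (by positivity)
              rw [sq]
              exact mul_le_mul hX1 hX2 p2.le (Nat.cast_nonneg _)
    · rw [if_neg hc]
      exact hG0 _
  have hcard : ∀ y ∈ ZZ (X ^ 2) ×ˢ ZZ (X ^ 2),
      ((Q ×ˢ Q).filter (fun x => g x = y)).card ≤ D ^ 2 := by
    intro y hy
    rw [Finset.mem_product, mem_ZZ, mem_ZZ] at hy
    have h1 : ((Q ×ˢ Q).filter (fun x => g x = y)).card ≤
        (y.1.natAbs.divisors ×ˢ y.2.natAbs.divisors).card := by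
      refine Finset.card_le_card_of_injOn (fun x => (x.2.2, x.1.2)) ?_ ?_
      · intro x hx
        rw [Finset.mem_coe, Finset.mem_filter, Finset.mem_product] at hx
        rw [Finset.mem_coe, Finset.mem_product]
        have e := hx.2
        rw [hg] at e
        simp only at e
        rw [← e]
        simp only [Nat.mem_divisors]
        have y1 : y.1 ≠ 0 := hy.1.1
        have y2 : y.2 ≠ 0 := hy.2.1
        rw [← e] at y1 y2
        simp only at y1 y2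
        refine ⟨⟨?_, by rwa [Int.natAbs_ne_zero]⟩, ⟨?_, by rwa [Int.natAbs_ne_zero]⟩⟩
        · rw [Int.natAbs_mul]
          exact Dvd.intro_left _ rfl
        · rw [Int.natAbs_mul]
          exact Dvd.intro_left _ rfl
      · intro x hx z hz hxz
        rw [Finset.mem_coe, Finset.mem_filter, Finset.mem_product] at hx hz
        simp only [Prod.mk.injEq] at hxz
        obtain ⟨k1, k2⟩ := hxz
        have e := hx.2.trans hz.2.symm
        rw [hg] at e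
        simp only [Prod.mk.injEq] at e
        obtain ⟨e1, e2⟩ := e
        obtain ⟨_, _, a3, _, _⟩ := hmQ z.1 hz.1.1
        obtain ⟨_, _, b3, _, _⟩ := hmQ z.2 hz.1.2
        rw [k1, k2] at e1 e2
        have f1 := mul_right_cancel₀ (show ((z.2.2 : ℕ) : ℤ) ≠ 0 by omega) e1
        have f2 := mul_right_cancel₀ (show ((z.1.2 : ℕ) : ℤ) ≠ 0 by omega) e2
        ext
        · omega
        · exact k2
        · omega
        · exact k1
    refine h1.trans ?_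
    rw [Finset.card_product, sq]
    have t : ∀ m : ℤ, m ≠ 0 ∧ |m| ≤ ((X ^ 2 : ℕ) : ℤ) → m.natAbs.divisors.card ≤ D := by
      intro m hm
      refine hD _ (Nat.one_le_iff_ne_zero.2 (Int.natAbs_ne_zero.2 hm.1)) ?_
      have h := hm.2
      rw [Int.abs_eq_natAbs] at h
      exact_mod_cast h
    exact Nat.mul_le_mul (t _ hy.1) (t _ hy.2)
  have hsum : ∑ a ∈ Q, ∑ b ∈ Q, (if (d : ℤ) ∣ (a.1 : ℤ) * b.2 - (b.1 : ℤ) * a.2 then
      v a * v b else 0) = ∑ x ∈ Q ×ˢ Q, (if (d : ℤ) ∣ (x.1.1 : ℤ) * x.2.2 - (x.2.1 : ℤ) * x.1.2 then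
      v x.1 * v x.2 else 0) := by
    rw [Finset.sum_product]
  rw [hsum]
  calc _ ≤ ∑ x ∈ Q ×ˢ Q, G (g x) := Finset.sum_le_sum hFG
    _ = ∑ y ∈ ZZ (X ^ 2) ×ˢ ZZ (X ^ 2), ∑ x ∈ (Q ×ˢ Q).filter (fun x => g x = y), G (g x) :=
        (Finset.sum_fiberwise_of_maps_to hmaps _).symm
    _ = ∑ y ∈ ZZ (X ^ 2) ×ˢ ZZ (X ^ 2), ((Q ×ˢ Q).filter (fun x => g x = y)).card * G y := by
        refine Finset.sum_congr rfl fun y _ => ?_
        rw [← nsmul_eq_mul, ← Finset.sum_const]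
        refine Finset.sum_congr rfl fun x hx => ?_
        rw [(Finset.mem_filter.1 hx).2]
    _ ≤ ∑ y ∈ ZZ (X ^ 2) ×ˢ ZZ (X ^ 2), (D : ℝ) ^ 2 * G y := by
        refine Finset.sum_le_sum fun y hy => mul_le_mul_of_nonneg_right ?_ (hG0 y)
        exact_mod_cast hcard y hy
    _ = (D : ℝ) ^ 2 * ∑ y ∈ ZZ (X ^ 2) ×ˢ ZZ (X ^ 2), G y := by rw [Finset.mul_sum]
    _ ≤ _ := by
        refine mul_le_mul_of_nonneg_left ?_ (by positivity)
        rw [hG]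
        rw [Finset.sum_add_distrib, Finset.sum_product, Finset.sum_product]
        refine add_le_add ?_ ?_
        · have e1 : ∑ m ∈ ZZ (X ^ 2), ∑ m' ∈ ZZ (X ^ 2), (if m = m' then H / |(m : ℝ)| else 0) =
              H * ∑ m ∈ ZZ (X ^ 2), 1 / |(m : ℝ)| := by
            rw [Finset.mul_sum]
            refine Finset.sum_congr rfl fun m hm => ?_
            rw [Finset.sum_ite_eq, if_pos hm]
            ring
          simp only
          rw [e1]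
          exact mul_le_mul_of_nonneg_left (sum_inv_int _) hH
        · simp only
          simp only [← Finset.mul_sum]
          exact mul_le_mul_of_nonneg_left (pair_sum (X ^ 2) d hd) (by positivity)

end Pool.Agent.D0H77.EA
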