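import Pool.Agent.D0H77.EA.CoreA
import Pool.Agent.D0H77.ES.FinS

/-! Final form, arbitrary sets of characters. -/

set_option autoImplicit false

open Complex Filter Topology Set MeasureTheory
open H370 (zset mult NN Nd Ns GoodL)

namespace Pool.Agent.D0H77.EA

open H385 (LF Rw)
open Pool.Agent.N880.HD (cH cH_anti cH_le const_main)
open Pool.Agent.D0H77.EM (GJ EX NF cH_le' chord)
open Pool.Agent.D0H77.ES (FS FamIneqE famIneqE_s famIneqE_j NN_FS Ns_FS Nd_FS NF_FS EX_FS)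

theorem hmsA : S_msA := msA_main Pool.Agent.N880.QF.Rest.rest_main

theorem fin_gen (G : (ℂ → ℂ) → ℝ → ℝ)
    (hG : ∀ γ : ℝ, 0 < γ → γ < Real.pi → FamIneqE γ G) (h ε δ0 : ℝ) (hh0 : 0 < h) (hh1 : h ≤ 1)
    (hε : 0 < ε) (hδ0 : 0 < δ0) :
    ∃ K : ℝ, 1 ≤ K ∧ ∀ (q : ℕ) [NeZero q] (d : ℕ) (_ : d ∣ q) (ψ : DirichletCharacter ℂ q)
      (E : Finset (DirichletCharacter ℂ q))
      (_ : ∀ χ ∈ E, χ.IsPrimitive ∧ (χ * ψ⁻¹).conductor ∣ d) (T H : ℝ), K ≤ H →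
      K * Real.sqrt (Real.log (q * T)) ≤ H → H ≤ T → d * (q * T) ^ δ0 ≤ E.card * H →
      (q * T) ^ (2 * h) ≤ E.card * H ^ 2 →
      ∑ χ ∈ E, G (FS (LF q χ) (T - H)) H ≤
        (cH h + ε) * ∑ χ ∈ E, (NN (LF q χ) T (T + H) : ℝ) := by
  obtain ⟨g1, g2, g3⟩ := const_main h hh0 (by linarith)
  have hκ : Rw (Real.sqrt 2 * h) 0 / h +
      2 * h * (∫ α in (0 : ℝ)..1, α * Rw (Real.sqrt 2 * h) α) < cH h + ε := by
    have : Rw (Real.sqrt 2 * h) 0 / h +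
        2 * h * (∫ α in (0 : ℝ)..1, α * Rw (Real.sqrt 2 * h) α) = cH h := by
      unfold cH
      rw [← g3]
      ring
    rw [this]
    linarith
  obtain ⟨K, hK1, hK⟩ := coreA_main hmsA h (Real.sqrt 2 * h) (cH h + ε) δ0 hδ0 hh0 hh1 g1 g2 hκ G
    (hG _ g1 g2)
  refine ⟨K, hK1, fun q _ d hd ψ E hE T H h1 h2 h3 h4 h4' => ?_⟩
  have e1 : H + (T - H) = T := by ring
  have h5 := hK q d hd ψ E hE (T - H) H (by linarith) h1 (by rw [e1]; exact h2)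
    (by rw [e1]; exact h4) (by rw [e1]; exact h4')
  have e2 : T - H + H = T := by ring
  have e3 : T - H + 2 * H = T + H := by ring
  simp only [NN_FS, e2, e3] at h5
  exact h5

theorem fin_s (h ε δ0 : ℝ) (hh0 : 0 < h) (hh1 : h ≤ 1) (hε : 0 < ε)
    (hδ0 : 0 < δ0) :
    ∃ K : ℝ, 1 ≤ K ∧ ∀ (q : ℕ) [NeZero q] (d : ℕ) (_ : d ∣ q) (ψ : DirichletCharacter ℂ q)
      (E : Finset (DirichletCharacter ℂ q))
      (_ : ∀ χ ∈ E, χ.IsPrimitive ∧ (χ * ψ⁻¹).conductor ∣ d) (T H : ℝ), K ≤ H →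
      K * Real.sqrt (Real.log (q * T)) ≤ H → H ≤ T → d * (q * T) ^ δ0 ≤ E.card * H →
      (q * T) ^ (2 * h) ≤ E.card * H ^ 2 →
      (2 - cH h - ε) * ∑ χ ∈ E, (NN (LF q χ) T (T + H) : ℝ) ≤
        ∑ χ ∈ E, (Ns (LF q χ) T (T + H) : ℝ) := by
  obtain ⟨K, hK1, hK⟩ := fin_gen _ famIneqE_s h ε δ0 hh0 hh1 hε hδ0
  refine ⟨K, hK1, fun q _ d hd ψ E hE T H h1 h2 h3 h4 h4' => ?_⟩
  have h5 := hK q d hd ψ E hE T H h1 h2 h3 h4 h4'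
  have e2 : T - H + H = T := by ring
  have e3 : T - H + 2 * H = T + H := by ring
  simp only [NN_FS, Ns_FS, e2, e3] at h5
  rw [Finset.sum_sub_distrib, ← Finset.mul_sum] at h5
  linarith

theorem fin_j (j : ℕ) (h ε δ0 : ℝ) (hh0 : 0 < h) (hh1 : h ≤ 1) (hε : 0 < ε)
    (hδ0 : 0 < δ0) :
    ∃ K : ℝ, 1 ≤ K ∧ ∀ (q : ℕ) [NeZero q] (d : ℕ) (_ : d ∣ q) (ψ : DirichletCharacter ℂ q)
      (E : Finset (DirichletCharacter ℂ q))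
      (_ : ∀ χ ∈ E, χ.IsPrimitive ∧ (χ * ψ⁻¹).conductor ∣ d) (T H : ℝ), K ≤ H →
      K * Real.sqrt (Real.log (q * T)) ≤ H → H ≤ T → d * (q * T) ^ δ0 ≤ E.card * H →
      (q * T) ^ (2 * h) ≤ E.card * H ^ 2 →
      (2 * j + 1 - cH h - ε) * ∑ χ ∈ E, (NN (LF q χ) T (T + H) : ℝ) +
        ∑ χ ∈ E, (EX j (LF q χ) T (T + H) : ℝ) +
        ((j : ℝ) ^ 2 + 1) / 2 * ∑ χ ∈ E, (NF (LF q χ) T (T + H) : ℝ) ≤
      j * (j + 1) * ∑ χ ∈ E, (Nd (LF q χ) T (T + H) : ℝ) := by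
  obtain ⟨K, hK1, hK⟩ := fin_gen _ (famIneqE_j j) h ε δ0 hh0 hh1 hε hδ0
  refine ⟨K, hK1, fun q _ d hd ψ E hE T H h1 h2 h3 h4 h4' => ?_⟩
  have h5 := hK q d hd ψ E hE T H h1 h2 h3 h4 h4'
  have e2 : T - H + H = T := by ring
  have e3 : T - H + 2 * H = T + H := by ring
  unfold GJ at h5
  simp only [NN_FS, Nd_FS, NF_FS, EX_FS, e2, e3] at h5
  rw [Finset.sum_add_distrib, Finset.sum_add_distrib, Finset.sum_sub_distrib, ← Finset.mul_sum,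
    ← Finset.mul_sum, ← Finset.mul_sum] at h5
  linarith

theorem fin_pos (h ε δ0 : ℝ) (hh0 : 0 < h) (hh1 : h ≤ 1) (hε : 0 < ε)
    (hδ0 : 0 < δ0) :
    ∃ K : ℝ, 1 ≤ K ∧ ∀ (q : ℕ) [NeZero q] (d : ℕ) (_ : d ∣ q) (ψ : DirichletCharacter ℂ q)
      (E : Finset (DirichletCharacter ℂ q))
      (_ : ∀ χ ∈ E, χ.IsPrimitive ∧ (χ * ψ⁻¹).conductor ∣ d) (T H : ℝ), K ≤ H →
      K * Real.sqrt (Real.log (q * T)) ≤ H → H ≤ T → d * (q * T) ^ δ0 ≤ E.card * H →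
      (q * T) ^ (2 * h) ≤ E.card * H ^ 2 →
      (3 * h / (3 + h ^ 2) - ε) * ∑ χ ∈ E, (NN (LF q χ) T (T + H) : ℝ) ≤
        ∑ χ ∈ E, (Nd (LF q χ) T (T + H) : ℝ) := by
  have hx := cH_le' h hh0 hh1
  have hx1 : 1 ≤ 1 / h + h / 3 := by
    have : 1 ≤ 1 / h := by rw [le_div_iff₀ hh0]; linarith
    have : 0 ≤ h / 3 := by positivity
    linarith
  obtain ⟨j, hj, hjc⟩ := chord (1 / h + h / 3) hx1
  have hj1 : (1 : ℝ) ≤ j := by exact_mod_cast hj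
  have hjj : 0 < (j : ℝ) * (j + 1) := by positivity
  obtain ⟨K, hK1, hK⟩ := fin_j j h (j * (j + 1) * ε) δ0 hh0 hh1 (by positivity) hδ0
  refine ⟨K, hK1, fun q _ d hd ψ E hE T H h1 h2 h3 h3' h3'' => ?_⟩
  have h4 := hK q d hd ψ E hE T H h1 h2 h3 h3' h3''
  have e1 : 3 * h / (3 + h ^ 2) = 1 / (1 / h + h / 3) := by
    field_simp
  have e2 : 3 * h / (3 + h ^ 2) * (j * (j + 1)) ≤ 2 * j + 1 - cH h := by
    rw [e1]
    rw [le_div_iff₀ hjj] at hjc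
    linarith
  have n1 : 0 ≤ ∑ χ ∈ E, (NN (LF q χ) T (T + H) : ℝ) :=
    Finset.sum_nonneg fun _ _ => Nat.cast_nonneg _
  have n2 : 0 ≤ ∑ χ ∈ E, (EX j (LF q χ) T (T + H) : ℝ) :=
    Finset.sum_nonneg fun _ _ => Nat.cast_nonneg _
  have n3 : 0 ≤ ((j : ℝ) ^ 2 + 1) / 2 * ∑ χ ∈ E, (NF (LF q χ) T (T + H) : ℝ) :=
    mul_nonneg (by positivity) (Finset.sum_nonneg fun _ _ => Nat.cast_nonneg _)
  refine le_of_mul_le_mul_left ?_ hjj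
  have e3 := mul_le_mul_of_nonneg_right e2 n1
  have e4 : (j : ℝ) * (j + 1) * ((3 * h / (3 + h ^ 2) - ε) *
      ∑ χ ∈ E, (NN (LF q χ) T (T + H) : ℝ)) =
      3 * h / (3 + h ^ 2) * (j * (j + 1)) * ∑ χ ∈ E, (NN (LF q χ) T (T + H) : ℝ) -
      j * (j + 1) * ε * ∑ χ ∈ E, (NN (LF q χ) T (T + H) : ℝ) := by ring
  rw [e4]
  linarith

end Pool.Agent.D0H77.EA
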