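import Pool.Agent.H385R3.Cyc1

/-! The Gram matrix of the functions `bt`. -/

set_option autoImplicit false

open Complex Filter Topology MeasureTheory Set

namespace Pool.Agent.D0H77.EA

open H385 (bt wt bt_norm wt_sq_int bt_cross wt_nonneg)

lemma key1 (u a b : ℝ) : Real.exp (-(u - a) ^ 2 / 4) * Real.exp (-(u - b) ^ 2 / 4) * Real.exp a ≤
    Real.exp (1 / 2) * Real.exp ((a + b) / 2) := by
  rw [← Real.exp_add, ← Real.exp_add, ← Real.exp_add]
  apply Real.exp_le_exp.2
  nlinarith [sq_nonneg (a - b - 2), sq_nonneg (2 * u - a - b)]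

lemma key2 (u : ℝ) (p r : ℕ) (hp : 1 ≤ p) (hr : 1 ≤ r) :
    Real.exp (-(u - Real.log p) ^ 2 / 4) * Real.exp (-(u - Real.log r) ^ 2 / 4) * max (p : ℝ) r ≤
      Real.exp (1 / 2) * (Real.sqrt p * Real.sqrt r) := by
  have hp0 : (0 : ℝ) < p := by exact_mod_cast hp
  have hr0 : (0 : ℝ) < r := by exact_mod_cast hr
  have e1 : Real.sqrt p * Real.sqrt r = Real.exp ((Real.log p + Real.log r) / 2) := by
    rw [add_div, Real.exp_add, Real.exp_half, Real.exp_half, Real.exp_log hp0, Real.exp_log hr0]
  rw [e1]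
  rcases le_total (p : ℝ) r with h | h
  · rw [max_eq_right h]
    have := key1 u (Real.log r) (Real.log p)
    rw [Real.exp_log hr0] at this
    rw [add_comm (Real.log p), mul_comm (Real.exp (-(u - Real.log p) ^ 2 / 4))]
    exact this
  · rw [max_eq_left h]
    have := key1 u (Real.log p) (Real.log r)
    rw [Real.exp_log hp0] at this
    exact this

lemma log_diff (p r : ℕ) (hp : 1 ≤ p) (hr : 1 ≤ r) :
    |(p : ℝ) - r| ≤ |Real.log p - Real.log r| * max (p : ℝ) r := by
  have gen : ∀ x y : ℝ, 0 < x → x ≤ y → y - x ≤ (Real.log y - Real.log x) * y := by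
    intro x y hx hxy
    have hy : 0 < y := lt_of_lt_of_le hx hxy
    have h1 : Real.log (x / y) ≤ x / y - 1 := Real.log_le_sub_one_of_pos (by positivity)
    rw [Real.log_div hx.ne' hy.ne'] at h1
    have h2 := mul_le_mul_of_nonneg_right h1 hy.le
    have h3 : (x / y - 1) * y = x - y := by field_simp
    rw [h3] at h2
    linarith
  have hp0 : (0 : ℝ) < p := by exact_mod_cast hp
  have hr0 : (0 : ℝ) < r := by exact_mod_cast hr
  rcases le_total (p : ℝ) r with h | h
  · rw [max_eq_right h, abs_sub_comm, abs_sub_comm (Real.log p), abs_of_nonneg (by linarith),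
      abs_of_nonneg (by have := Real.log_le_log hp0 h; linarith)]
    exact gen _ _ hp0 h
  · rw [max_eq_left h, abs_of_nonneg (by linarith),
      abs_of_nonneg (by have := Real.log_le_log hr0 h; linarith)]
    exact gen _ _ hr0 h

theorem gram : ∃ C : ℝ, 0 < C ∧ ∀ (H u : ℝ) (p r : ℕ), 1 ≤ H → 1 ≤ p → 1 ≤ r → p ≠ r →
    Integrable (fun t : ℝ => bt H u t (Real.log p) * (starRingEnd ℂ) (bt H u t (Real.log r))) ∧
    1 / (Real.sqrt p * Real.sqrt r) *
      ‖∫ t : ℝ, bt H u t (Real.log p) * (starRingEnd ℂ) (bt H u t (Real.log r))‖ ≤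
      C * min (H / r) (1 / |(p : ℝ) - r|) := by
  obtain ⟨C1, hC1, h1⟩ := bt_cross
  obtain ⟨C3, hC3, h3⟩ := wt_sq_int
  refine ⟨Real.exp (1 / 2) * (C1 + (1 + C3)), by positivity, ?_⟩
  intro H u p r hH hp hr hpr
  have hp0 : (0 : ℝ) < p := by exact_mod_cast hp
  have hr0 : (0 : ℝ) < r := by exact_mod_cast hr
  have hprR : (p : ℝ) ≠ r := by exact_mod_cast hpr
  have hl : Real.log p ≠ Real.log r := by
    intro e
    exact hprR (Real.log_injOn_pos (Set.mem_Ioi.mpr hp0) (Set.mem_Ioi.mpr hr0) e)
  obtain ⟨i1, i2⟩ := h1 H u (Real.log p) (Real.log r) (by linarith) hl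
  refine ⟨i1, ?_⟩
  obtain ⟨g, hg⟩ : ∃ g : ℝ, g = Real.exp (-(u - Real.log p) ^ 2 / 4) *
    Real.exp (-(u - Real.log r) ^ 2 / 4) := ⟨_, rfl⟩
  have hg0 : 0 < g := by rw [hg]; positivity
  obtain ⟨m, hm⟩ : ∃ m : ℝ, m = max (p : ℝ) r := ⟨_, rfl⟩
  have hmr : (r : ℝ) ≤ m := by rw [hm]; exact le_max_right _ _
  have hm0 : 0 < m := by linarith
  obtain ⟨n, hn⟩ : ∃ n : ℝ, n = Real.sqrt p * Real.sqrt r := ⟨_, rfl⟩
  have hn0 : 0 < n := by
    rw [hn]
    have := Real.sqrt_pos.2 hp0
    have := Real.sqrt_pos.2 hr0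
    positivity
  have hkey : g * m ≤ Real.exp (1 / 2) * n := by
    rw [hg, hm, hn]; exact key2 u p r hp hr
  have hgn : 1 / n * g ≤ Real.exp (1 / 2) / m := by
    rw [one_div_mul_eq_div, div_le_div_iff₀ hn0 hm0]
    exact hkey
  rw [← hn]
  have hd : 0 < |(p : ℝ) - r| := abs_pos.2 (sub_ne_zero.2 hprR)
  have hld : |(p : ℝ) - r| ≤ |Real.log p - Real.log r| * m := by
    rw [hm]; exact log_diff p r hp hr
  have hl0 : 0 < |Real.log p - Real.log r| := abs_pos.2 (sub_ne_zero.2 hl)
  rw [mul_min_of_nonneg _ _ (by positivity)]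
  apply le_min
  · -- the trivial bound
    have e1 : ‖∫ t : ℝ, bt H u t (Real.log p) * (starRingEnd ℂ) (bt H u t (Real.log r))‖ ≤
        g * ((1 + C3) * H) := by
      obtain ⟨j1, j2⟩ := h3 H (by linarith)
      refine (norm_integral_le_integral_norm _).trans ?_
      have e2 : ∀ t : ℝ, ‖bt H u t (Real.log p) * (starRingEnd ℂ) (bt H u t (Real.log r))‖ ≤
          g * wt H t ^ 2 := by
        intro t
        have b1 := bt_norm H u t (Real.log p) (by linarith)
        have b2 := bt_norm H u t (Real.log r) (by linarith)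
        rw [norm_mul, Complex.norm_conj]
        have hpi : 1 / Real.sqrt (2 * Real.pi) ≤ 1 := by
          rw [div_le_one (by positivity)]
          exact Real.one_le_sqrt.2 (by linarith [Real.pi_gt_three])
        have w0 := wt_nonneg H t (by linarith)
        have c1 : ‖bt H u t (Real.log p)‖ ≤ Real.exp (-(u - Real.log p) ^ 2 / 4) * wt H t := by
          refine b1.trans ?_
          rw [mul_assoc]
          exact mul_le_of_le_one_left (by positivity) hpi
        have c2 : ‖bt H u t (Real.log r)‖ ≤ Real.exp (-(u - Real.log r) ^ 2 / 4) * wt H t := by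
          refine b2.trans ?_
          rw [mul_assoc]
          exact mul_le_of_le_one_left (by positivity) hpi
        calc _ ≤ (Real.exp (-(u - Real.log p) ^ 2 / 4) * wt H t) *
              (Real.exp (-(u - Real.log r) ^ 2 / 4) * wt H t) :=
              mul_le_mul c1 c2 (norm_nonneg _) (by positivity)
          _ = _ := by rw [hg]; ring
      refine (integral_mono_of_nonneg (Eventually.of_forall fun t => norm_nonneg _)
        (j1.const_mul g) (Eventually.of_forall e2)).trans ?_
      rw [integral_const_mul]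
      refine mul_le_mul_of_nonneg_left (j2.trans ?_) hg0.le
      nlinarith
    calc _ ≤ 1 / n * (g * ((1 + C3) * H)) := mul_le_mul_of_nonneg_left e1 (by positivity)
      _ = (1 / n * g) * ((1 + C3) * H) := by ring
      _ ≤ (Real.exp (1 / 2) / m) * ((1 + C3) * H) :=
          mul_le_mul_of_nonneg_right hgn (by positivity)
      _ ≤ (Real.exp (1 / 2) / r) * ((C1 + (1 + C3)) * H) := by
          apply mul_le_mul _ _ (by positivity) (by positivity)
          · exact div_le_div_of_nonneg_left (Real.exp_pos _).le hr0 hmr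
          · exact mul_le_mul_of_nonneg_right (by linarith) (by linarith)
      _ = _ := by ring
  · calc _ ≤ 1 / n * (C1 * g / |Real.log p - Real.log r|) := by
          rw [hg]
          exact mul_le_mul_of_nonneg_left i2 (by positivity)
      _ = (1 / n * g) * (C1 / |Real.log p - Real.log r|) := by ring
      _ ≤ (Real.exp (1 / 2) / m) * (C1 / |Real.log p - Real.log r|) :=
          mul_le_mul_of_nonneg_right hgn (by positivity)
      _ = (Real.exp (1 / 2) * C1) / (|Real.log p - Real.log r| * m) := by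
          field_simp
      _ ≤ (Real.exp (1 / 2) * C1) / |(p : ℝ) - r| :=
          div_le_div_of_nonneg_left (by positivity) hd hld
      _ ≤ (Real.exp (1 / 2) * (C1 + (1 + C3))) / |(p : ℝ) - r| := by
          apply div_le_div_of_nonneg_right _ hd.le
          exact mul_le_mul_of_nonneg_left (by linarith) (Real.exp_pos _).le
      _ = _ := by ring

end Pool.Agent.D0H77.EA
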