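import Pool.Agent.D0H77.EM.Coset

/-! Orthogonality of the characters in a coset, for sums over pairs. -/

set_option autoImplicit false

open Finset DirichletCharacter

namespace Pool.Agent.D0H77.EA

open Pool.Agent.D0H77.EM

variable {q : ℕ} [NeZero q]

/-- the correlation of four values -/
lemma four_bound {d : ℕ} (hd : d ∣ q) (ψ : DirichletCharacter ℂ q) (a b c e : ℕ) :
    ‖∑ η ∈ XX q d, ((η * ψ) (a : ZMod q) * (starRingEnd ℂ) ((η * ψ) (b : ZMod q))) *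
      (starRingEnd ℂ) ((η * ψ) (c : ZMod q) * (starRingEnd ℂ) ((η * ψ) (e : ZMod q)))‖ ≤
      if (d : ℤ) ∣ (a : ℤ) * e - (c : ℤ) * b then (d.totient : ℝ) else 0 := by
  classical
  have hnn : (0 : ℝ) ≤ if (d : ℤ) ∣ (a : ℤ) * e - (c : ℤ) * b then (d.totient : ℝ) else 0 := by
    split_ifs <;> positivity
  by_cases ha : IsUnit (a : ZMod q)
  swap
  · rw [Finset.sum_eq_zero, norm_zero]
    · exact hnn
    · intro η _
      rw [(η * ψ).map_nonunit ha]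
      simp
  by_cases hb : IsUnit (b : ZMod q)
  swap
  · rw [Finset.sum_eq_zero, norm_zero]
    · exact hnn
    · intro η _
      rw [(η * ψ).map_nonunit hb]
      simp
  by_cases hc : IsUnit (c : ZMod q)
  swap
  · rw [Finset.sum_eq_zero, norm_zero]
    · exact hnn
    · intro η _
      rw [(η * ψ).map_nonunit hc]
      simp
  by_cases he : IsUnit (e : ZMod q)
  swap
  · rw [Finset.sum_eq_zero, norm_zero]
    · exact hnn
    · intro η _
      rw [(η * ψ).map_nonunit he]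
      simp
  obtain ⟨u1, hu1⟩ := ha
  obtain ⟨u2, hu2⟩ := hb
  obtain ⟨u3, hu3⟩ := hc
  obtain ⟨u4, hu4⟩ := he
  obtain ⟨w, hw⟩ : ∃ w : (ZMod q)ˣ, w = u1 * u2⁻¹ * u3⁻¹ * u4 := ⟨_, rfl⟩
  have hconj : ∀ (χ : DirichletCharacter ℂ q) (u : (ZMod q)ˣ),
      (starRingEnd ℂ) (χ (u : ZMod q)) = χ ((u⁻¹ : (ZMod q)ˣ) : ZMod q) := by
    intro χ u
    have h2 : (starRingEnd ℂ) (χ (u : ZMod q)) = χ⁻¹ (u : ZMod q) := MulChar.star_apply' χ _
    rw [h2, MulChar.inv_apply, Ring.inverse_unit]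
  have hterm : ∀ η : DirichletCharacter ℂ q,
      ((η * ψ) (a : ZMod q) * (starRingEnd ℂ) ((η * ψ) (b : ZMod q))) *
      (starRingEnd ℂ) ((η * ψ) (c : ZMod q) * (starRingEnd ℂ) ((η * ψ) (e : ZMod q))) =
      ψ (w : ZMod q) * η (w : ZMod q) := by
    intro η
    rw [← hu1, ← hu2, ← hu3, ← hu4, map_mul, Complex.conj_conj, hconj, hconj, ← mul_comm (η w),
      ← MulChar.mul_apply, hw]
    simp only [Units.val_mul, map_mul]
    ring
  rw [Finset.sum_congr rfl (fun η _ => hterm η), ← Finset.mul_sum, XX_sum hd w, norm_mul]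
  have h6 : ‖ψ (w : ZMod q)‖ ≤ 1 := DirichletCharacter.norm_le_one _ _
  by_cases h1 : ZMod.castHom hd (ZMod d) (w : ZMod q) = 1
  · rw [if_pos h1]
    have h2 : (d : ℤ) ∣ (a : ℤ) * e - (c : ℤ) * b := by
      have h3 : (w : ZMod q) * ((u2 : ZMod q) * u3) = u1 * u4 := by
        rw [hw]
        simp only [Units.val_mul]
        have k2 : ((u2⁻¹ : (ZMod q)ˣ) : ZMod q) * u2 = 1 := Units.inv_mul u2
        have k3 : ((u3⁻¹ : (ZMod q)ˣ) : ZMod q) * u3 = 1 := Units.inv_mul u3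
        calc _ = (u1 : ZMod q) * u4 * (((u2⁻¹ : (ZMod q)ˣ) : ZMod q) * u2) *
              (((u3⁻¹ : (ZMod q)ˣ) : ZMod q) * u3) := by ring
          _ = _ := by rw [k2, k3]; ring
      have h4 := congrArg (ZMod.castHom hd (ZMod d)) h3
      rw [map_mul, h1, one_mul, hu1, hu2, hu3, hu4, map_mul, map_mul, map_natCast, map_natCast,
        map_natCast, map_natCast] at h4
      have h5 : (((c : ℤ) * b : ℤ) : ZMod d) = (((a : ℤ) * e : ℤ) : ZMod d) := by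
        push_cast
        rw [mul_comm]
        exact h4
      exact (ZMod.intCast_eq_intCast_iff_dvd_sub _ _ d).1 h5
    rw [if_pos h2, Complex.norm_natCast]
    exact mul_le_of_le_one_left (Nat.cast_nonneg _) h6
  · rw [if_neg h1]
    simpa using hnn

/-- the mean square over a set of characters in a coset of a sum over pairs -/
theorem orth_pairs {d : ℕ} (hd : d ∣ q) (ψ : DirichletCharacter ℂ q)
    (E : Finset (DirichletCharacter ℂ q)) (hE : ∀ χ ∈ E, (χ * ψ⁻¹).conductor ∣ d)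
    (Q : Finset (ℕ × ℕ)) (b : ℕ × ℕ → ℂ) :
    ∑ χ ∈ E, ‖∑ a ∈ Q, b a * (χ (a.1 : ZMod q) * (starRingEnd ℂ) (χ (a.2 : ZMod q)))‖ ^ 2 ≤
      d.totient * ∑ a ∈ Q, ∑ c ∈ Q,
        (if (d : ℤ) ∣ (a.1 : ℤ) * c.2 - (c.1 : ℤ) * a.2 then ‖b a‖ * ‖b c‖ else 0) := by
  classical
  obtain ⟨f, hf⟩ : ∃ f : DirichletCharacter ℂ q → ℝ, f = fun χ =>
    ‖∑ a ∈ Q, b a * (χ (a.1 : ZMod q) * (starRingEnd ℂ) (χ (a.2 : ZMod q)))‖ ^ 2 := ⟨_, rfl⟩
  have h1 : ∑ χ ∈ E, f χ ≤ ∑ η ∈ XX q d, f (η * ψ) := by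
    have e1 : ∑ χ ∈ E, f χ = ∑ η ∈ E.image (fun χ => χ * ψ⁻¹), f (η * ψ) := by
      rw [Finset.sum_image (fun x _ y _ h => mul_right_cancel h)]
      refine Finset.sum_congr rfl fun χ _ => ?_
      rw [inv_mul_cancel_right]
    rw [e1]
    refine Finset.sum_le_sum_of_subset_of_nonneg ?_ (fun _ _ _ => by rw [hf]; positivity)
    intro η hη
    rw [Finset.mem_image] at hη
    obtain ⟨χ, hχ, rfl⟩ := hη
    rw [mem_XX]
    exact hE χ hχ
  have h2 : ((∑ η ∈ XX q d, f (η * ψ) : ℝ) : ℂ) = ∑ a ∈ Q, ∑ c ∈ Q, (b a * (starRingEnd ℂ) (b c)) *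
      ∑ η ∈ XX q d, ((η * ψ) (a.1 : ZMod q) * (starRingEnd ℂ) ((η * ψ) (a.2 : ZMod q))) *
      (starRingEnd ℂ) ((η * ψ) (c.1 : ZMod q) * (starRingEnd ℂ) ((η * ψ) (c.2 : ZMod q))) := by
    push_cast
    have e1 : ∀ η ∈ XX q d, ((f (η * ψ) : ℝ) : ℂ) = ∑ a ∈ Q, ∑ c ∈ Q,
        (b a * (starRingEnd ℂ) (b c)) *
        (((η * ψ) (a.1 : ZMod q) * (starRingEnd ℂ) ((η * ψ) (a.2 : ZMod q))) *
      (starRingEnd ℂ) ((η * ψ) (c.1 : ZMod q) * (starRingEnd ℂ) ((η * ψ) (c.2 : ZMod q)))) := by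
      intro η _
      rw [hf]
      simp only
      push_cast
      rw [← Complex.mul_conj', map_sum, Finset.sum_mul_sum]
      refine Finset.sum_congr rfl fun a _ => Finset.sum_congr rfl fun c _ => ?_
      rw [map_mul]
      ring
    rw [Finset.sum_congr rfl e1, Finset.sum_comm]
    refine Finset.sum_congr rfl fun a _ => ?_
    rw [Finset.sum_comm]
    refine Finset.sum_congr rfl fun c _ => ?_
    rw [Finset.mul_sum]
  have h3 : ∑ η ∈ XX q d, f (η * ψ) ≤ ∑ a ∈ Q, ∑ c ∈ Q, (‖b a‖ * ‖b c‖) *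
      (if (d : ℤ) ∣ (a.1 : ℤ) * c.2 - (c.1 : ℤ) * a.2 then (d.totient : ℝ) else 0) := by
    have e0 : ∑ η ∈ XX q d, f (η * ψ) = ‖((∑ η ∈ XX q d, f (η * ψ) : ℝ) : ℂ)‖ := by
      rw [Complex.norm_real, Real.norm_of_nonneg]
      exact Finset.sum_nonneg fun _ _ => by rw [hf]; positivity
    rw [e0, h2]
    refine (norm_sum_le _ _).trans (Finset.sum_le_sum fun a _ => ?_)
    refine (norm_sum_le _ _).trans (Finset.sum_le_sum fun c _ => ?_)
    rw [norm_mul, norm_mul, Complex.norm_conj]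
    exact mul_le_mul_of_nonneg_left (four_bound hd ψ a.1 a.2 c.1 c.2) (by positivity)
  have h4 : ∑ χ ∈ E, f χ ≤ _ := h1.trans h3
  rw [hf] at h4
  refine h4.trans (le_of_eq ?_)
  rw [Finset.mul_sum]
  refine Finset.sum_congr rfl fun a _ => ?_
  rw [Finset.mul_sum]
  refine Finset.sum_congr rfl fun c _ => ?_
  split_ifs
  · ring
  · ring

end Pool.Agent.D0H77.EA
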