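import Pool.Agent.D0H77.EA.Cnt
import Pool.Agent.D0H77.EA.Orth
import Pool.Agent.D0H77.EA.Gram
import Pool.Agent.N880.HD.Ms

/-! The mean square of a sum over primes, on average over an arbitrary set of characters. -/

set_option autoImplicit false

open Complex Filter Topology MeasureTheory Set

namespace Pool.Agent.D0H77.EA

open H385 (bt wt bt_norm wt_sq_int bt_sq_int bt_cross wt_nonneg)
open Pool.Agent.N880.HD (main_sum_integrable)

/-- the weighted count -/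
noncomputable def CNT (X D : ℕ) (d : ℕ) (H : ℝ) : ℝ :=
  (D : ℝ) ^ 2 * (H * (2 * (1 + Real.log ((X ^ 2 : ℕ) : ℝ))) +
        (X : ℝ) ^ 2 * (2 * ((2 * (1 + Real.log ((X ^ 2 : ℕ) : ℝ))) *
          (2 * (1 + Real.log ((2 * X ^ 2 : ℕ) : ℝ)) / d))))

/-- the mean square of one sum -/
lemma single_ms (P : Finset ℕ) (hP : ∀ p ∈ P, 1 ≤ p) (z : ℕ → ℂ) {H κ u : ℝ} (hκ : 1 ≤ κ)
    (hH : 1 ≤ H) (hHκ : H ≤ Real.exp (κ ^ 2)) :
    ∫ t : ℝ, ‖∑ p ∈ P, z p * bt H u t (Real.log p)‖ ^ 2 ≤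
      (∑ p ∈ P, ‖z p‖ ^ 2 * ∫ t : ℝ, ‖bt H u t (Real.log p)‖ ^ 2) +
      ‖∑ a ∈ P.offDiag, (z a.1 * (starRingEnd ℂ) (z a.2)) *
        ∫ t : ℝ, bt H u t (Real.log a.1) * (starRingEnd ℂ) (bt H u t (Real.log a.2))‖ := by
  classical
  obtain ⟨C4, _, hbt⟩ := bt_sq_int
  obtain ⟨Cg, _, hgram⟩ := gram
  have hpt : ∀ t : ℝ, ((‖∑ p ∈ P, z p * bt H u t (Real.log p)‖ ^ 2 : ℝ) : ℂ) =
      ((∑ p ∈ P, ‖z p‖ ^ 2 * ‖bt H u t (Real.log p)‖ ^ 2 : ℝ) : ℂ) +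
      ∑ a ∈ P.offDiag, (z a.1 * (starRingEnd ℂ) (z a.2)) *
        (bt H u t (Real.log a.1) * (starRingEnd ℂ) (bt H u t (Real.log a.2))) := by
    intro t
    have e1 : ((‖∑ p ∈ P, z p * bt H u t (Real.log p)‖ ^ 2 : ℝ) : ℂ) =
        ∑ a ∈ P ×ˢ P, (z a.1 * (starRingEnd ℂ) (z a.2)) *
        (bt H u t (Real.log a.1) * (starRingEnd ℂ) (bt H u t (Real.log a.2))) := by
      push_cast
      rw [← Complex.mul_conj', map_sum, Finset.sum_mul_sum, Finset.sum_product]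
      refine Finset.sum_congr rfl fun a _ => Finset.sum_congr rfl fun c _ => ?_
      rw [map_mul]
      ring
    rw [e1, ← Finset.diag_union_offDiag, Finset.sum_union (Finset.disjoint_diag_offDiag P),
      Finset.sum_diag]
    congr 1
    push_cast
    refine Finset.sum_congr rfl fun p _ => ?_
    rw [← Complex.mul_conj', ← Complex.mul_conj']
  have hoff : ∀ a ∈ P.offDiag, Integrable (fun t : ℝ => (z a.1 * (starRingEnd ℂ) (z a.2)) *
        (bt H u t (Real.log a.1) * (starRingEnd ℂ) (bt H u t (Real.log a.2)))) := by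
    intro a ha
    rw [Finset.mem_offDiag] at ha
    exact ((hgram H u a.1 a.2 hH (hP _ ha.1) (hP _ ha.2.1) ha.2.2).1).const_mul _
  have hdi : Integrable (fun t : ℝ => ∑ p ∈ P, ‖z p‖ ^ 2 * ‖bt H u t (Real.log p)‖ ^ 2) :=
    integrable_finsetSum _ fun p _ => (hbt H κ u (Real.log p) hκ hH hHκ).1.const_mul _
  have hdi2 : Integrable (fun t : ℝ =>
      ((∑ p ∈ P, ‖z p‖ ^ 2 * ‖bt H u t (Real.log p)‖ ^ 2 : ℝ) : ℂ)) := hdi.ofReal
  have h1 : ((∫ t : ℝ, ‖∑ p ∈ P, z p * bt H u t (Real.log p)‖ ^ 2 : ℝ) : ℂ) =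
      ((∑ p ∈ P, ‖z p‖ ^ 2 * ∫ t : ℝ, ‖bt H u t (Real.log p)‖ ^ 2 : ℝ) : ℂ) +
      ∑ a ∈ P.offDiag, (z a.1 * (starRingEnd ℂ) (z a.2)) *
        ∫ t : ℝ, bt H u t (Real.log a.1) * (starRingEnd ℂ) (bt H u t (Real.log a.2)) := by
    rw [← integral_complex_ofReal]
    simp_rw [hpt]
    rw [integral_add hdi2 (integrable_finsetSum _ hoff), integral_complex_ofReal,
      integral_finsetSum _ hoff]
    congr 1
    · congr 1
      rw [integral_finsetSum P (fun (p : ℕ) _ =>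
        (hbt H κ u (Real.log p) hκ hH hHκ).1.const_mul (‖z p‖ ^ 2))]
      refine Finset.sum_congr rfl fun p _ => ?_
      rw [integral_const_mul]
    · refine Finset.sum_congr rfl fun a _ => ?_
      rw [integral_const_mul]
  have h2 := congrArg Complex.re h1
  rw [Complex.add_re, Complex.ofReal_re, Complex.ofReal_re] at h2
  rw [h2]
  exact add_le_add le_rfl (Complex.re_le_norm _)

/-- the mean square over a set of characters in a coset -/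
theorem family_ms : ∃ C : ℝ, 0 < C ∧ ∀ (q : ℕ) [NeZero q] (d : ℕ) (_ : d ∣ q)
    (ψ : DirichletCharacter ℂ q) (E : Finset (DirichletCharacter ℂ q))
    (_ : ∀ χ ∈ E, (χ * ψ⁻¹).conductor ∣ d) (P : Finset ℕ) (X D : ℕ)
    (_ : ∀ p ∈ P, 1 ≤ p ∧ p ≤ X) (_ : ∀ n : ℕ, 1 ≤ n → n ≤ X ^ 2 → n.divisors.card ≤ D)
    (y : ℕ → ℂ) (ly : ℝ) (_ : 0 ≤ ly) (_ : ∀ p ∈ P, ‖y p‖ ≤ ly / Real.sqrt p) (H κ u : ℝ),
    1 ≤ κ → 1 ≤ H → H ≤ Real.exp (κ ^ 2) →
    ∫ t : ℝ, ∑ χ ∈ E, ‖∑ p ∈ P, (χ (p : ZMod q) * y p) * bt H u t (Real.log p)‖ ^ 2 ≤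
      E.card * (H / (2 * Real.pi) * ∑ p ∈ P, ‖y p‖ ^ 2 * Real.exp (-(u - Real.log p) ^ 2) +
        C * κ * ∑ p ∈ P, ‖y p‖ ^ 2 * Real.exp (-(u - Real.log p) ^ 2 / 2)) +
      Real.sqrt (E.card * (d * ((C * ly ^ 2) ^ 2 * CNT X D d H))) := by
  classical
  obtain ⟨C4, hC4, hbt⟩ := bt_sq_int
  obtain ⟨Cg, hCg, hgram⟩ := gram
  refine ⟨max C4 Cg, lt_max_of_lt_left hC4, ?_⟩
  intro q _ d hd ψ E hE P X D hP hD y ly hly hy H κ u hκ hH hHκ
  have hd1 : 1 ≤ d := Nat.one_le_iff_ne_zero.2 (fun h => NeZero.ne q (Nat.eq_zero_of_zero_dvd (h ▸ hd)))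
  have hP1 : ∀ p ∈ P, 1 ≤ p := fun p hp => (hP p hp).1
  have hint : ∀ χ : DirichletCharacter ℂ q, Integrable (fun t : ℝ =>
      ‖∑ p ∈ P, (χ (p : ZMod q) * y p) * bt H u t (Real.log p)‖ ^ 2) := fun χ =>
    main_sum_integrable P (fun p => χ (p : ZMod q) * y p) (fun p => Real.log p) hκ hH hHκ
  rw [integral_finsetSum _ (fun χ _ => hint χ)]
  obtain ⟨b, hb⟩ : ∃ b : ℕ × ℕ → ℂ, b = fun a => (y a.1 * (starRingEnd ℂ) (y a.2)) *
        ∫ t : ℝ, bt H u t (Real.log a.1) * (starRingEnd ℂ) (bt H u t (Real.log a.2)) := ⟨_, rfl⟩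
  obtain ⟨v, hv⟩ : ∃ v : ℕ × ℕ → ℝ, v = fun a => min (H / a.2) (1 / |(a.1 : ℝ) - a.2|) := ⟨_, rfl⟩
  obtain ⟨O, hO⟩ : ∃ O : DirichletCharacter ℂ q → ℂ, O = fun χ =>
    ∑ a ∈ P.offDiag, b a * (χ (a.1 : ZMod q) * (starRingEnd ℂ) (χ (a.2 : ZMod q))) := ⟨_, rfl⟩
  obtain ⟨A, hA⟩ : ∃ A : ℝ, A = H / (2 * Real.pi) * ∑ p ∈ P, ‖y p‖ ^ 2 *
      Real.exp (-(u - Real.log p) ^ 2) +
        (max C4 Cg) * κ * ∑ p ∈ P, ‖y p‖ ^ 2 * Real.exp (-(u - Real.log p) ^ 2 / 2) := ⟨_, rfl⟩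
  rw [← hA]
  have hterm : ∀ χ ∈ E, ∫ t : ℝ, ‖∑ p ∈ P, (χ (p : ZMod q) * y p) * bt H u t (Real.log p)‖ ^ 2 ≤
      A + ‖O χ‖ := by
    intro χ _
    refine (single_ms P hP1 (fun p => χ (p : ZMod q) * y p) hκ hH hHκ).trans ?_
    apply add_le_add _ (le_of_eq _)
    · rw [hA, Finset.mul_sum, Finset.mul_sum, ← Finset.sum_add_distrib]
      refine Finset.sum_le_sum fun p hp => ?_
      have h1 := (hbt H κ u (Real.log p) hκ hH hHκ).2
      have h2 : ‖χ (p : ZMod q) * y p‖ ^ 2 ≤ ‖y p‖ ^ 2 := by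
        rw [norm_mul]
        exact pow_le_pow_left₀ (by positivity)
          (mul_le_of_le_one_left (norm_nonneg _) (DirichletCharacter.norm_le_one _ _)) 2
      have h3 : 0 ≤ ∫ t : ℝ, ‖bt H u t (Real.log p)‖ ^ 2 :=
        integral_nonneg fun t => by positivity
      calc _ ≤ ‖y p‖ ^ 2 * ∫ t : ℝ, ‖bt H u t (Real.log p)‖ ^ 2 :=
            mul_le_mul_of_nonneg_right h2 h3
        _ ≤ ‖y p‖ ^ 2 * (H / (2 * Real.pi) * Real.exp (-(u - Real.log p) ^ 2) +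
              C4 * κ * Real.exp (-(u - Real.log p) ^ 2 / 2)) :=
            mul_le_mul_of_nonneg_left h1 (by positivity)
        _ ≤ ‖y p‖ ^ 2 * (H / (2 * Real.pi) * Real.exp (-(u - Real.log p) ^ 2) +
              max C4 Cg * κ * Real.exp (-(u - Real.log p) ^ 2 / 2)) := by
            gcongr
            exact le_max_left _ _
        _ = _ := by ring
    · rw [hO, hb]
      simp only
      congr 1
      refine Finset.sum_congr rfl fun a _ => ?_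
      rw [map_mul]
      ring
  have hb1 : ∀ a ∈ P.offDiag, ‖b a‖ ≤ (max C4 Cg * ly ^ 2) * v a := by
    intro a ha
    rw [Finset.mem_offDiag] at ha
    obtain ⟨ha1, ha2, ha3⟩ := ha
    have p1 : (0 : ℝ) < a.1 := by exact_mod_cast hP1 _ ha1
    have p2 : (0 : ℝ) < a.2 := by exact_mod_cast hP1 _ ha2
    have s1 := Real.sqrt_pos.2 p1
    have s2 := Real.sqrt_pos.2 p2
    have g := (hgram H u a.1 a.2 hH (hP1 _ ha1) (hP1 _ ha2) ha3).2
    have v0 : 0 ≤ v a := by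
      rw [hv]
      exact le_min (by positivity) (by positivity)
    rw [hb]
    simp only
    rw [norm_mul, norm_mul, Complex.norm_conj]
    calc _ ≤ (ly / Real.sqrt a.1 * (ly / Real.sqrt a.2)) *
          ‖∫ t : ℝ, bt H u t (Real.log a.1) * (starRingEnd ℂ) (bt H u t (Real.log a.2))‖ := by
          refine mul_le_mul_of_nonneg_right ?_ (norm_nonneg _)
          exact mul_le_mul (hy _ ha1) (hy _ ha2) (norm_nonneg _) (by positivity)
      _ = ly ^ 2 * (1 / (Real.sqrt a.1 * Real.sqrt a.2) *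
          ‖∫ t : ℝ, bt H u t (Real.log a.1) * (starRingEnd ℂ) (bt H u t (Real.log a.2))‖) := by
          field_simp
      _ ≤ ly ^ 2 * (Cg * v a) := by
          rw [hv]
          exact mul_le_mul_of_nonneg_left g (by positivity)
      _ ≤ ly ^ 2 * (max C4 Cg * v a) := by
          gcongr
          exact le_max_right _ _
      _ = _ := by ring
  have hv0 : ∀ a ∈ P.offDiag, 0 ≤ v a := by
    intro a _
    rw [hv]
    exact le_min (by positivity) (by positivity)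
  have hcnt := cnt X D d hd1 P hP hD H (by linarith) v hv0
    (fun a _ => by rw [hv]; exact min_le_left _ _) (fun a _ => by rw [hv]; exact min_le_right _ _)
  have hM0 : 0 ≤ max C4 Cg * ly ^ 2 := by
    have : 0 < max C4 Cg := lt_max_of_lt_left hC4
    positivity
  have hsq : ∑ χ ∈ E, ‖O χ‖ ^ 2 ≤ d * ((max C4 Cg * ly ^ 2) ^ 2 * CNT X D d H) := by
    rw [hO]
    refine (orth_pairs hd ψ E hE P.offDiag b).trans ?_
    have h1 : ∑ a ∈ P.offDiag, ∑ c ∈ P.offDiag,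
        (if (d : ℤ) ∣ (a.1 : ℤ) * c.2 - (c.1 : ℤ) * a.2 then ‖b a‖ * ‖b c‖ else 0) ≤
        (max C4 Cg * ly ^ 2) ^ 2 * ∑ a ∈ P.offDiag, ∑ c ∈ P.offDiag,
        (if (d : ℤ) ∣ (a.1 : ℤ) * c.2 - (c.1 : ℤ) * a.2 then v a * v c else 0) := by
      rw [Finset.mul_sum]
      refine Finset.sum_le_sum fun a ha => ?_
      rw [Finset.mul_sum]
      refine Finset.sum_le_sum fun c hc => ?_
      split_ifs
      · calc _ ≤ ((max C4 Cg * ly ^ 2) * v a) * ((max C4 Cg * ly ^ 2) * v c) :=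
              mul_le_mul (hb1 a ha) (hb1 c hc) (norm_nonneg _) (mul_nonneg hM0 (hv0 a ha))
          _ = _ := by ring
      · simp
    have h2 : (d.totient : ℝ) ≤ d := by exact_mod_cast Nat.totient_le d
    have h3 := mul_le_mul_of_nonneg_left hcnt (sq_nonneg (max C4 Cg * ly ^ 2))
    refine mul_le_mul h2 (h1.trans h3) ?_ (Nat.cast_nonneg _)
    exact Finset.sum_nonneg fun a _ => Finset.sum_nonneg fun c _ => by split_ifs <;> positivity
  have hcs : ∑ χ ∈ E, ‖O χ‖ ≤ Real.sqrt (E.card * (d * ((max C4 Cg * ly ^ 2) ^ 2 * CNT X D d H))) := by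
    apply Real.le_sqrt_of_sq_le
    refine (sq_sum_le_card_mul_sum_sq (s := E) (f := fun χ => ‖O χ‖)).trans ?_
    exact mul_le_mul_of_nonneg_left hsq (Nat.cast_nonneg _)
  calc _ ≤ ∑ χ ∈ E, (A + ‖O χ‖) := Finset.sum_le_sum hterm
    _ = E.card * A + ∑ χ ∈ E, ‖O χ‖ := by
        rw [Finset.sum_add_distrib, Finset.sum_const, nsmul_eq_mul]
    _ ≤ _ := add_le_add le_rfl hcs

end Pool.Agent.D0H77.EA
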