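import Pool.Agent.D0H77.EA.Fms
import Pool.Agent.D0H77.ES.Shift
import Pool.Agent.H353R2.Z2
import Pool.Agent.N880.QF.Rest

/-! # The mean square over an arbitrary set of characters in a coset -/

set_option autoImplicit false

open Complex Filter Topology MeasureTheory Set

namespace Pool.Agent.D0H77.EA

open Pool.Agent.D0H77.ES (aS aS_norm)
open H385 (bt wt Rw bt_norm wt_nonneg wt_le_one bt_sq_int wt_sq_int bt_cont)
open Pool.Agent.N880.QF (PP mem_PP yy yy_sq yy_abs card_PP sq_add_le)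
open Pool.Agent.N880.HD (main_sum_integrable)

/-- the off-diagonal part -/
lemma num_cnt {C Cd L W H a s δ0 h u : ℝ} {X D d : ℕ} (hC : 0 < C) (hCd : 0 < Cd) (hL : 1 ≤ L)
    (hW : 0 ≤ W) (hH : 1 ≤ H) (ha : 0 < a) (ha1 : a ≤ δ0) (ha2 : a ≤ s * h) (hd : 1 ≤ d)
    (hu0 : 0 ≤ u) (hu : u ≤ (1 - s) * h * L) (hh : 0 < h) (hh1 : h ≤ 1) (hs : 0 < s)
    (hX : (X : ℝ) ≤ Real.exp (u + s * h / 4 * L))
    (hD : (D : ℝ) ≤ Cd * Real.exp (4 * (a / 16) * L))
    (h1 : d * Real.exp (δ0 * L) ≤ W * H) (h2 : Real.exp (2 * h * L) ≤ W * H ^ 2)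
    (hthr : 4000 * C ^ 2 * Cd ^ 2 * (L ^ 6 * Real.exp (-(a / 2 * L))) ≤ (s / 4) ^ 2) :
    W * (d * ((C * (2 * L) ^ 2) ^ 2 * CNT X D d H)) ≤ (s / 4 * W * H) ^ 2 := by
  have hL0 : 0 < L := by linarith
  have hH0 : 0 < H := by linarith
  have hd0 : (0 : ℝ) < d := by exact_mod_cast hd
  have hX0 : (0 : ℝ) ≤ X := Nat.cast_nonneg _
  have hD0 : (0 : ℝ) ≤ D := Nat.cast_nonneg _
  have hXL : (X : ℝ) ≤ Real.exp (2 * L) := by
    refine hX.trans (Real.exp_le_exp.2 ?_)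
    have e1 : (1 - s) * h * L + s * h / 4 * L = h * L - 3 / 4 * (s * h * L) := by ring
    have e2 : 0 ≤ s * h * L := by positivity
    have e3 : h * L ≤ 1 * L := mul_le_mul_of_nonneg_right hh1 hL0.le
    linarith
  have hlog1 : Real.log ((X ^ 2 : ℕ) : ℝ) ≤ 4 * L := by
    rcases Nat.eq_zero_or_pos X with h0 | h0
    · rw [h0]; simp; linarith
    · have hx : (0 : ℝ) < X := by exact_mod_cast h0
      push_cast
      rw [Real.log_pow]
      have := (Real.log_le_iff_le_exp hx).2 hXL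
      push_cast
      linarith
  have hlog2 : Real.log ((2 * X ^ 2 : ℕ) : ℝ) ≤ 4 * L + 1 := by
    rcases Nat.eq_zero_or_pos X with h0 | h0
    · rw [h0]; simp; linarith
    · have hx : (0 : ℝ) < X := by exact_mod_cast h0
      push_cast
      rw [Real.log_mul (by norm_num) (by positivity), Real.log_pow]
      have := (Real.log_le_iff_le_exp hx).2 hXL
      have h3 : Real.log 2 ≤ 1 := by linarith [Real.log_two_lt_d9]
      push_cast
      linarith
  have hl10 : 0 ≤ Real.log ((X ^ 2 : ℕ) : ℝ) := Real.log_natCast_nonneg _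
  have hl20 : 0 ≤ Real.log ((2 * X ^ 2 : ℕ) : ℝ) := Real.log_natCast_nonneg _
  have hCNT : d * CNT X D d H ≤ (D : ℝ) ^ 2 * (d * H * (10 * L) + (X : ℝ) ^ 2 * (240 * L ^ 2)) := by
    unfold CNT
    have b1 : 2 * (1 + Real.log ((X ^ 2 : ℕ) : ℝ)) ≤ 10 * L := by linarith
    have b2 : 2 * (1 + Real.log ((2 * X ^ 2 : ℕ) : ℝ)) ≤ 12 * L := by linarith
    have b3 : 0 ≤ 2 * (1 + Real.log ((X ^ 2 : ℕ) : ℝ)) := by positivity
    have b4 : 0 ≤ 2 * (1 + Real.log ((2 * X ^ 2 : ℕ) : ℝ)) := by positivity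
    obtain ⟨x1, hx1⟩ : ∃ x, x = 2 * (1 + Real.log ((X ^ 2 : ℕ) : ℝ)) := ⟨_, rfl⟩
    obtain ⟨x2, hx2⟩ : ∃ x, x = 2 * (1 + Real.log ((2 * X ^ 2 : ℕ) : ℝ)) := ⟨_, rfl⟩
    rw [← hx1] at b1 b3
    rw [← hx2] at b2 b4
    rw [← hx1, ← hx2]
    have e1 : (d : ℝ) * ((D : ℝ) ^ 2 * (H * x1 + (X : ℝ) ^ 2 * (2 * (x1 * (x2 / d))))) =
        (D : ℝ) ^ 2 * (d * H * x1 + (X : ℝ) ^ 2 * (2 * (x1 * x2))) := by
      field_simp
    rw [e1]
    have b5 : x1 * x2 ≤ (10 * L) * (12 * L) := mul_le_mul b1 b2 b4 (by positivity)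
    have b6 : 2 * (x1 * x2) ≤ 240 * L ^ 2 := by
      have : (10 * L) * (12 * L) = 120 * L ^ 2 := by ring
      linarith
    gcongr
  have hD2 : (D : ℝ) ^ 2 ≤ Cd ^ 2 * Real.exp (a / 2 * L) := by
    refine (pow_le_pow_left₀ hD0 hD 2).trans (le_of_eq ?_)
    rw [mul_pow, ← Real.exp_nat_mul]
    congr 2
    push_cast
    ring
  have hdH : (d : ℝ) * H ≤ W * H ^ 2 * Real.exp (-(a * L)) := by
    have e1 : (d : ℝ) * Real.exp (a * L) ≤ W * H := by
      refine le_trans ?_ h1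
      exact mul_le_mul_of_nonneg_left (Real.exp_le_exp.2 (mul_le_mul_of_nonneg_right ha1 hL0.le))
        hd0.le
    have e2 : (d : ℝ) * H = ((d : ℝ) * Real.exp (a * L)) * H * Real.exp (-(a * L)) := by
      rw [Real.exp_neg]; field_simp
    rw [e2]
    refine mul_le_mul_of_nonneg_right ?_ (Real.exp_pos _).le
    calc (d : ℝ) * Real.exp (a * L) * H ≤ (W * H) * H := mul_le_mul_of_nonneg_right e1 hH0.le
      _ = _ := by ring
  have hX2 : (X : ℝ) ^ 2 ≤ W * H ^ 2 * Real.exp (-(a * L)) := by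
    have e1 : (X : ℝ) ^ 2 ≤ Real.exp (2 * h * L) * Real.exp (-(a * L)) := by
      refine (pow_le_pow_left₀ hX0 hX 2).trans ?_
      rw [← Real.exp_nat_mul, ← Real.exp_add]
      apply Real.exp_le_exp.2
      push_cast
      have e3 : a * L ≤ s * h * L := mul_le_mul_of_nonneg_right ha2 hL0.le
      have e4 : (1 - s) * h * L = h * L - s * h * L := by ring
      have e5 : s * h / 4 * L = s * h * L / 4 := by ring
      have e6 : 0 ≤ s * h * L := by positivity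
      rw [e4] at hu
      rw [e5]
      linarith
    exact e1.trans (mul_le_mul_of_nonneg_right h2 (Real.exp_pos _).le)
  have hL12 : L ≤ L ^ 2 := by nlinarith
  have hmain : d * CNT X D d H ≤ (Cd ^ 2 * Real.exp (a / 2 * L)) *
      (250 * L ^ 2 * (W * H ^ 2 * Real.exp (-(a * L)))) := by
    refine hCNT.trans ?_
    apply mul_le_mul hD2 _ (by positivity) (by positivity)
    have f0 : 0 ≤ W * H ^ 2 * Real.exp (-(a * L)) := by positivity
    calc (d : ℝ) * H * (10 * L) + (X : ℝ) ^ 2 * (240 * L ^ 2)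
        ≤ (W * H ^ 2 * Real.exp (-(a * L))) * (10 * L ^ 2) +
          (W * H ^ 2 * Real.exp (-(a * L))) * (240 * L ^ 2) := by gcongr
      _ = _ := by ring
  calc W * (d * ((C * (2 * L) ^ 2) ^ 2 * CNT X D d H))
      = W * (16 * C ^ 2 * L ^ 4) * (d * CNT X D d H) := by ring
    _ ≤ W * (16 * C ^ 2 * L ^ 4) * ((Cd ^ 2 * Real.exp (a / 2 * L)) *
      (250 * L ^ 2 * (W * H ^ 2 * Real.exp (-(a * L))))) := by gcongr
    _ = (W * H) ^ 2 * (4000 * C ^ 2 * Cd ^ 2 * (L ^ 6 *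
          (Real.exp (a / 2 * L) * Real.exp (-(a * L))))) := by ring
    _ = (W * H) ^ 2 * (4000 * C ^ 2 * Cd ^ 2 * (L ^ 6 * Real.exp (-(a / 2 * L)))) := by
        rw [← Real.exp_add]
        congr 4
        ring
    _ ≤ (W * H) ^ 2 * (s / 4) ^ 2 := mul_le_mul_of_nonneg_left hthr (by positivity)
    _ = _ := by ring

/-- the mean square over the family; `L = log (q (H + t0))` -/
def S_msA : Prop := ∀ (h s δ0 : ℝ), 0 < h → h ≤ 1 → 0 < s → s ≤ 1 / 2 → 0 < δ0 →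
  ∃ K C : ℝ, 0 < C ∧ 1 ≤ K ∧
  ∀ (q : ℕ) [NeZero q] (d : ℕ) (_ : d ∣ q) (ψ : DirichletCharacter ℂ q)
    (E : Finset (DirichletCharacter ℂ q)) (_ : ∀ χ ∈ E, (χ * ψ⁻¹).conductor ∣ d)
    (t0 H u : ℝ), 0 ≤ t0 → K ≤ H → d * (q * (H + t0)) ^ δ0 ≤ E.card * H →
    (q * (H + t0)) ^ (2 * h) ≤ E.card * H ^ 2 → 0 ≤ u → u ≤ (1 - s) * h * Real.log (q * (H + t0)) →
    ∫ t : ℝ, ∑ χ ∈ E, (1 : ℝ) * ‖∑' n : ℕ, aS (fun n => χ (n : ZMod q) *
        (ArithmeticFunction.vonMangoldt n : ℂ)) t0 n *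
        ((Real.sqrt n : ℂ)⁻¹ * bt H u t (Real.log n))‖ ^ 2 ≤
      (1 + s) * E.card * (H / (2 * Real.pi)) * Pool.Agent.N7.MainC.inner 1 u +
        C * E.card * H + s * E.card * H * (u + 1)

theorem msA_main (hrest : Pool.Agent.N880.QF.S_rest) : S_msA := by
  classical
  intro h s δ0 hh0 hh1 hs hs1 hδ00
  obtain ⟨δ, hδ⟩ : ∃ δ, δ = s / 4 := ⟨_, rfl⟩
  have hδ0 : 0 < δ := by rw [hδ]; positivity
  have hδ1 : δ ≤ 1 := by rw [hδ]; linarith
  obtain ⟨Cf, hCf, hfam⟩ := family_ms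
  obtain ⟨CR, hCR, hr⟩ := hrest 0 (s * h / 4) (by positivity)
  obtain ⟨C3, hC3, hwt⟩ := wt_sq_int
  obtain ⟨C5, hC5, hcr⟩ := H385.lam_sq_crude
  have hsh : 0 < s * h := by positivity
  obtain ⟨a, ha0, ha1, ha2⟩ : ∃ a : ℝ, 0 < a ∧ a ≤ δ0 ∧ a ≤ s * h :=
    ⟨min δ0 (s * h), lt_min hδ00 hsh, min_le_left _ _, min_le_right _ _⟩
  obtain ⟨Cd, hCd, hdiv⟩ := H353.divisor_bound_real (a / 16) (by positivity)
  obtain ⟨θ, hθ0, hθ1⟩ : ∃ θ : ℝ, 0 < θ ∧ θ * (4 * Cf * C5) ≤ s := by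
    refine ⟨s / (4 * Cf * C5), by positivity, ?_⟩
    rw [div_mul_cancel₀ _ (by positivity)]
  obtain ⟨L1, hL1⟩ : ∃ L1 : ℝ, ∀ L : ℝ, L1 ≤ L →
      4000 * Cf ^ 2 * Cd ^ 2 * (L ^ 6 * Real.exp (-(a / 2 * L))) ≤ (s / 4) ^ 2 := by
    have h3 : Tendsto (fun L : ℝ => L ^ 6 * Real.exp (-(a / 2 * L))) atTop (𝓝 0) := by
      have h4 : Tendsto (fun L : ℝ => a / 2 * L) atTop atTop :=
        tendsto_id.const_mul_atTop (by positivity)
      have h5 := ((Real.tendsto_pow_mul_exp_neg_atTop_nhds_zero 6).comp h4).const_mul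
        (1 / (a / 2) ^ 6)
      rw [mul_zero] at h5
      refine h5.congr fun L => ?_
      simp only [Function.comp]
      have : (a / 2) ^ 6 ≠ 0 := by positivity
      field_simp
    have h6 := h3.const_mul (4000 * Cf ^ 2 * Cd ^ 2)
    rw [mul_zero] at h6
    obtain ⟨L1, hL1⟩ := Filter.eventually_atTop.1 ((h6.eventually (gt_mem_nhds
      (show (0 : ℝ) < (s / 4) ^ 2 by positivity))).mono fun _ h => h.le)
    exact ⟨L1, hL1⟩
  obtain ⟨K, k1, k2, k3, k4, k5⟩ : ∃ K : ℝ, 1 ≤ K ∧ Real.exp L1 ≤ K ∧ Real.exp 1 ≤ K ∧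
      1 / θ ≤ K ∧ 1 / θ ^ 2 ≤ K := by
    have a1 := Real.exp_pos L1
    have a2 := Real.exp_pos 1
    have a3 : 0 ≤ 1 / θ := by positivity
    have a4 : 0 ≤ 1 / θ ^ 2 := by positivity
    exact ⟨1 + Real.exp L1 + Real.exp 1 + 1 / θ + 1 / θ ^ 2, by linarith, by linarith, by linarith,
      by linarith, by linarith⟩
  refine ⟨K, (1 + 1 / δ) * CR ^ 2 * (1 + C3), by positivity, k1, ?_⟩
  intro q _ d hd ψ E hE t0 H u ht0 hKH hdH hhT hu0 hu
  have hq0 : q ≠ 0 := NeZero.ne q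
  have hq1 : (1 : ℝ) ≤ q := by exact_mod_cast Nat.one_le_iff_ne_zero.2 hq0
  have hqpos : (0 : ℝ) < q := by linarith
  have hd1 : 1 ≤ d := Nat.one_le_iff_ne_zero.2 (fun h => hq0 (Nat.eq_zero_of_zero_dvd (h ▸ hd)))
  have hH1 : 1 ≤ H := k1.trans hKH
  have hH0 : 0 < H := by linarith
  obtain ⟨T, hT⟩ : ∃ T, T = H + t0 := ⟨_, rfl⟩
  rw [← hT] at hdH hhT hu
  have hHT : H ≤ T := by rw [hT]; linarith
  have hT1 : 1 ≤ T := by linarith
  have hT0 : 0 < T := by linarith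
  have hqT : 0 < (q : ℝ) * T := by positivity
  have hTqT : T ≤ q * T := le_mul_of_one_le_left hT0.le hq1
  obtain ⟨L, hL⟩ : ∃ L, L = Real.log (q * T) := ⟨_, rfl⟩
  rw [← hL] at hu
  have hLL1 : L1 ≤ L := by
    rw [hL, Real.le_log_iff_exp_le hqT]
    linarith
  have hL1' : 1 ≤ L := by
    rw [hL, Real.le_log_iff_exp_le hqT]
    linarith
  have hL0 : 0 < L := by linarith
  have hexpL : Real.exp L = q * T := by rw [hL, Real.exp_log hqT]
  have hu2 : u ≤ h * L - s * h * L := by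
    have e1 : (1 - s) * h * L = h * L - s * h * L := by ring
    linarith
  have hhL1 : h * L ≤ L := mul_le_of_le_one_left hL0.le hh1
  have hshL : 0 ≤ s * h * L := by positivity
  have huL : u ≤ L := by linarith
  obtain ⟨W, hWd⟩ : ∃ W : ℝ, W = (E.card : ℝ) := ⟨_, rfl⟩
  have hW0 : 0 ≤ W := by rw [hWd]; exact Nat.cast_nonneg _
  rw [← hWd] at hdH hhT ⊢
  have g1 : d * Real.exp (δ0 * L) ≤ W * H := by
    have : (q * T) ^ δ0 = Real.exp (δ0 * L) := by
      rw [Real.rpow_def_of_pos hqT, ← hL, mul_comm]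
    rw [← this]
    exact hdH
  have g2 : Real.exp (2 * h * L) ≤ W * H ^ 2 := by
    have : (q * T) ^ (2 * h) = Real.exp (2 * h * L) := by
      rw [Real.rpow_def_of_pos hqT, ← hL, mul_comm]
    rw [← this]
    exact hhT
  obtain ⟨P, hP⟩ : ∃ P, P = PP 0 (s * h / 4) L u := ⟨_, rfl⟩
  obtain ⟨X, hXd⟩ : ∃ X : ℕ, X = ⌊Real.exp (u + s * h / 4 * L)⌋₊ := ⟨_, rfl⟩
  have hX : (X : ℝ) ≤ Real.exp (u + s * h / 4 * L) := by
    rw [hXd]; exact Nat.floor_le (Real.exp_pos _).le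
  obtain ⟨D, hDd⟩ : ∃ D : ℕ, D = ⌊Cd * Real.exp (4 * (a / 16) * L)⌋₊ := ⟨_, rfl⟩
  have hD : (D : ℝ) ≤ Cd * Real.exp (4 * (a / 16) * L) := by
    rw [hDd]; exact Nat.floor_le (by positivity)
  have hXL : (X : ℝ) ≤ Real.exp (2 * L) := by
    refine hX.trans (Real.exp_le_exp.2 ?_)
    have e1 : s * h / 4 * L = s * h * L / 4 := by ring
    linarith
  have hPX : ∀ p ∈ P, 1 ≤ p ∧ p ≤ X := by
    intro p hp
    rw [hP] at hp
    obtain ⟨j1, _, j3⟩ := mem_PP hp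
    refine ⟨j1.pos, ?_⟩
    have hp0 : (0 : ℝ) < p := by exact_mod_cast j1.pos
    rw [hXd]
    apply Nat.le_floor
    rw [← Real.log_le_iff_le_exp hp0]
    have := (abs_le.1 j3).2
    linarith
  have hPlog : ∀ p ∈ P, Real.log p ≤ 2 * L := by
    intro p hp
    rw [hP] at hp
    obtain ⟨j1, _, j3⟩ := mem_PP hp
    have := (abs_le.1 j3).2
    have e1 : s * h / 4 * L = s * h * L / 4 := by ring
    linarith
  have hDX : ∀ n : ℕ, 1 ≤ n → n ≤ X ^ 2 → n.divisors.card ≤ D := by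
    intro n hn1 hn2
    rw [hDd]
    apply Nat.le_floor
    refine (hdiv n (by omega)).trans (mul_le_mul_of_nonneg_left ?_ hCd.le)
    have hn0 : (0 : ℝ) < n := by exact_mod_cast hn1
    have e1 : (n : ℝ) ≤ Real.exp (4 * L) := by
      have e2 : (n : ℝ) ≤ (X : ℝ) ^ 2 := by exact_mod_cast hn2
      refine e2.trans ((pow_le_pow_left₀ (Nat.cast_nonneg _) hXL 2).trans (le_of_eq ?_))
      rw [← Real.exp_nat_mul]
      congr 1
      push_cast
      ring
    refine (Real.rpow_le_rpow hn0.le e1 (by positivity)).trans (le_of_eq ?_)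
    rw [← Real.exp_mul]
    congr 1
    ring
  -- the coefficients
  obtain ⟨y, hy⟩ : ∃ y : ℕ → ℂ, y = fun p => ((yy p : ℝ) : ℂ) * (p : ℂ) ^ (-(I * t0)) := ⟨_, rfl⟩
  have hynorm : ∀ p ∈ P, ‖y p‖ = |yy p| := by
    intro p hp
    rw [hP] at hp
    have hpp := (mem_PP hp).1.pos
    rw [hy]
    simp only
    rw [norm_mul, Complex.norm_natCast_cpow_of_pos hpp, Complex.norm_real, Real.norm_eq_abs]
    have : (-(I * (t0 : ℂ))).re = 0 := by simp
    rw [this, Real.rpow_zero, mul_one]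
  have hy2 : ∀ p ∈ P, ‖y p‖ ≤ (2 * L) / Real.sqrt p := by
    intro p hp
    rw [hynorm p hp]
    unfold yy
    rw [abs_div, abs_of_nonneg ArithmeticFunction.vonMangoldt_nonneg,
      abs_of_nonneg (Real.sqrt_nonneg _)]
    apply div_le_div_of_nonneg_right _ (Real.sqrt_nonneg _)
    exact ArithmeticFunction.vonMangoldt_le_log.trans (hPlog p hp)
  obtain ⟨κ, hκ⟩ : ∃ κ, κ = θ * H := ⟨_, rfl⟩
  have hκ1 : 1 ≤ κ := by
    rw [hκ]
    rw [div_le_iff₀ hθ0] at k4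
    calc 1 ≤ K * θ := k4
      _ ≤ H * θ := mul_le_mul_of_nonneg_right hKH hθ0.le
      _ = _ := mul_comm _ _
  have hHκ : H ≤ Real.exp (κ ^ 2) := by
    have e1 := Real.add_one_le_exp (κ ^ 2)
    have e2 : H ≤ κ ^ 2 := by
      rw [hκ, mul_pow]
      rw [div_le_iff₀ (by positivity)] at k5
      have : 1 ≤ θ ^ 2 * H := by
        calc 1 ≤ K * θ ^ 2 := k5
          _ ≤ H * θ ^ 2 := mul_le_mul_of_nonneg_right hKH (by positivity)
          _ = _ := mul_comm _ _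
      calc H = 1 * H := (one_mul H).symm
        _ ≤ (θ ^ 2 * H) * H := mul_le_mul_of_nonneg_right this hH0.le
        _ = _ := by ring
    linarith
  -- the family mean square
  obtain ⟨M, hM⟩ : ∃ M : DirichletCharacter ℂ q → ℝ → ℂ, M = fun i t => ∑ p ∈ P,
    (i (p : ZMod q) * y p) * bt H u t (Real.log p) := ⟨_, rfl⟩
  have hfm := hfam q d hd ψ E hE P X D hPX hDX y (2 * L) (by positivity) hy2 H κ u hκ1 hH1 hHκ
  have hoff := num_cnt (C := Cf) (Cd := Cd) (L := L) (W := W) (H := H) (a := a) (s := s)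
    (δ0 := δ0) (h := h) (u := u) (X := X) (D := D) (d := d) hCf hCd hL1' hW0 hH1 ha0 ha1 ha2 hd1
    hu0 hu hh0 hh1 hs hX hD g1 g2 (hL1 L hLL1)
  have s1 : ∑ p ∈ P, ‖y p‖ ^ 2 * Real.exp (-(u - Real.log p) ^ 2) ≤
      Pool.Agent.N7.MainC.inner 1 u := by
    have h1 := (Pool.Agent.N7.MainC.inner_summable (c := 1) one_pos u).sum_le_tsum P
      (fun n _ => by positivity)
    unfold Pool.Agent.N7.MainC.inner
    rw [one_pow, one_mul]
    refine le_trans (le_of_eq (Finset.sum_congr rfl fun p hp => ?_)) h1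
    rw [hynorm p hp, sq_abs, yy_sq, one_mul]
  have s2 : ∑ p ∈ P, ‖y p‖ ^ 2 * Real.exp (-(u - Real.log p) ^ 2 / 2) ≤
      C5 * (u + 1) := by
    obtain ⟨h1, h2⟩ := hcr u hu0
    refine le_trans ?_ h2
    refine le_trans (le_of_eq (Finset.sum_congr rfl fun p hp => ?_)) (h1.sum_le_tsum P
      (fun n _ => by positivity))
    rw [hynorm p hp, sq_abs, yy_sq]
  obtain ⟨I1, hI1⟩ : ∃ I1, I1 = Pool.Agent.N7.MainC.inner 1 u := ⟨_, rfl⟩
  rw [← hI1] at s1
  have hI10 : 0 ≤ I1 := by rw [hI1]; exact Pool.Agent.N7.MainC.inner_nonneg 1 u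
  have hmM : ∫ t : ℝ, ∑ i ∈ E, (1 : ℝ) * ‖M i t‖ ^ 2 ≤
      W * (H / (2 * Real.pi) * I1 + s / 4 * H * (u + 1)) + s / 4 * W * H := by
    rw [hM]
    simp only [one_mul]
    refine hfm.trans ?_
    rw [← hWd]
    apply add_le_add
    · apply mul_le_mul_of_nonneg_left _ hW0
      apply add_le_add
      · exact mul_le_mul_of_nonneg_left s1 (by positivity)
      · calc _ ≤ Cf * κ * (C5 * (u + 1)) := mul_le_mul_of_nonneg_left s2 (by positivity)
          _ = (θ * (4 * Cf * C5)) / 4 * (H * (u + 1)) := by rw [hκ]; ring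
          _ ≤ s / 4 * (H * (u + 1)) := by
              apply mul_le_mul_of_nonneg_right _ (by positivity)
              linarith
          _ = _ := by ring
    · rw [← Real.sqrt_sq (show 0 ≤ s / 4 * W * H by positivity)]
      exact Real.sqrt_le_sqrt hoff
  have hWs : ∑ _i ∈ E, (1 : ℝ) = W := by
    rw [hWd, Finset.sum_const, nsmul_eq_mul, mul_one]
  -- the pointwise bound
  have hpt : ∀ t : ℝ, ∑ χ ∈ E, (1 : ℝ) * ‖∑' n : ℕ, aS (fun n => χ (n : ZMod q) *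
        (ArithmeticFunction.vonMangoldt n : ℂ)) t0 n *
          ((Real.sqrt n : ℂ)⁻¹ * bt H u t (Real.log n))‖ ^ 2 ≤
      (1 + δ) * ∑ i ∈ E, (1 : ℝ) * ‖M i t‖ ^ 2 +
        (1 + 1 / δ) * (CR ^ 2 * W) * wt H t ^ 2 := by
    intro t
    have hwn := wt_nonneg H t hH0.le
    have hk : ∀ i ∈ E, (1 : ℝ) * ‖∑' n : ℕ, aS (fun n => i (n : ZMod q) *
        (ArithmeticFunction.vonMangoldt n : ℂ)) t0 n *
          ((Real.sqrt n : ℂ)⁻¹ * bt H u t (Real.log n))‖ ^ 2 ≤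
        1 * ((1 + δ) * ‖M i t‖ ^ 2 + (1 + 1 / δ) * (CR * wt H t) ^ 2) := by
      intro i hi
      refine mul_le_mul_of_nonneg_left ?_ zero_le_one
      have h1 := hr L u H t (aS (fun n => i (n : ZMod q) *
        (ArithmeticFunction.vonMangoldt n : ℂ)) t0) hL1' hu0 huL hH0.le (fun n => by
          apply aS_norm
          intro n
          rw [norm_mul, Complex.norm_real, Real.norm_eq_abs,
            abs_of_nonneg ArithmeticFunction.vonMangoldt_nonneg]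
          exact mul_le_of_le_one_left ArithmeticFunction.vonMangoldt_nonneg
            (DirichletCharacter.norm_le_one _ _))
      have h2 : ∑ p ∈ PP 0 (s * h / 4) L u, aS (fun n => i (n : ZMod q) *
          (ArithmeticFunction.vonMangoldt n : ℂ)) t0 p *
          ((Real.sqrt p : ℂ)⁻¹ * bt H u t (Real.log p)) = M i t := by
        rw [hM, ← hP]
        refine Finset.sum_congr rfl fun p hp => ?_
        rw [hy]
        unfold aS yy
        push_cast
        rw [div_eq_mul_inv]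
        ring
      rw [h2] at h1
      have h3 := norm_le_norm_add_norm_sub' (∑' n : ℕ, aS (fun n => i (n : ZMod q) *
        (ArithmeticFunction.vonMangoldt n : ℂ)) t0 n *
        ((Real.sqrt n : ℂ)⁻¹ * bt H u t (Real.log n)))
        (M i t)
      exact (pow_le_pow_left₀ (norm_nonneg _) (h3.trans (add_le_add le_rfl h1)) 2).trans
        (sq_add_le hδ0 _ _)
    refine (Finset.sum_le_sum hk).trans (le_of_eq ?_)
    rw [Finset.mul_sum, ← hWs, Finset.mul_sum, Finset.mul_sum, Finset.sum_mul,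
      ← Finset.sum_add_distrib]
    refine Finset.sum_congr rfl fun i _ => ?_
    ring
  -- integrability
  have hMi : ∀ i : DirichletCharacter ℂ q, Integrable (fun t => ‖M i t‖ ^ 2) := by
    intro i
    rw [hM]
    exact main_sum_integrable P (fun p => i (p : ZMod q) * y p)
      (fun p => Real.log p) hκ1 hH1 hHκ
  have hi1 : Integrable (fun t => ∑ i ∈ E, (1 : ℝ) * ‖M i t‖ ^ 2) :=
    integrable_finsetSum _ fun i _ => (hMi i).const_mul _
  have hi2 : Integrable (fun t => wt H t ^ 2) := (hwt H hH0.le).1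
  have hint : Integrable (fun t => (1 + δ) * ∑ i ∈ E, (1 : ℝ) * ‖M i t‖ ^ 2 +
      (1 + 1 / δ) * (CR ^ 2 * W) * wt H t ^ 2) := (hi1.const_mul _).add (hi2.const_mul _)
  refine (integral_mono_of_nonneg (Eventually.of_forall fun t =>
    Finset.sum_nonneg fun χ _ => by positivity) hint
    (Eventually.of_forall hpt)).trans ?_
  rw [integral_add (hi1.const_mul _) (hi2.const_mul _), integral_const_mul, integral_const_mul]
  have hwtI := (hwt H hH0.le).2
  have f1 : (1 + δ) * ∫ t : ℝ, ∑ i ∈ E, (1 : ℝ) * ‖M i t‖ ^ 2 ≤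
      (1 + s) * W * (H / (2 * Real.pi)) * I1 + s * W * H * (u + 1) := by
    refine (mul_le_mul_of_nonneg_left hmM (by linarith)).trans ?_
    have hpi := Real.pi_pos
    have w0 : 0 ≤ W * (H / (2 * Real.pi)) * I1 := by positivity
    have w1 : 0 ≤ W * H * (u + 1) := by positivity
    have w2 : 0 ≤ W * H := by positivity
    have w3 : W * H ≤ W * H * (u + 1) := le_mul_of_one_le_right w2 (by linarith)
    have e1 : (1 + δ) * (W * (H / (2 * Real.pi) * I1 + s / 4 * H * (u + 1)) + s / 4 * W * H) =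
        (1 + δ) * (W * (H / (2 * Real.pi)) * I1) + (1 + δ) * (s / 4) * (W * H * (u + 1)) +
          (1 + δ) * (s / 4) * (W * H) := by ring
    rw [e1]
    have e2 : (1 + δ) * (W * (H / (2 * Real.pi)) * I1) ≤ (1 + s) * (W * (H / (2 * Real.pi)) * I1) :=
      mul_le_mul_of_nonneg_right (by linarith) w0
    have e3 : (1 + δ) * (s / 4) ≤ s / 2 := by nlinarith
    have e4 : (1 + δ) * (s / 4) * (W * H * (u + 1)) ≤ s / 2 * (W * H * (u + 1)) :=
      mul_le_mul_of_nonneg_right e3 w1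
    have e5 : (1 + δ) * (s / 4) * (W * H) ≤ s / 2 * (W * H * (u + 1)) :=
      mul_le_mul e3 w3 w2 (by positivity)
    calc _ ≤ (1 + s) * (W * (H / (2 * Real.pi)) * I1) + s / 2 * (W * H * (u + 1)) +
          s / 2 * (W * H * (u + 1)) := add_le_add (add_le_add e2 e4) e5
      _ = _ := by ring
  have f2 : (1 + 1 / δ) * (CR ^ 2 * W) * ∫ t : ℝ, wt H t ^ 2 ≤
      (1 + 1 / δ) * CR ^ 2 * (1 + C3) * W * H := by
    have h9 : H + C3 ≤ (1 + C3) * H := by nlinarith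
    calc _ ≤ (1 + 1 / δ) * (CR ^ 2 * W) * ((1 + C3) * H) :=
          mul_le_mul_of_nonneg_left (hwtI.trans h9) (by positivity)
      _ = _ := by ring
  rw [← hI1]
  linarith

end Pool.Agent.D0H77.EA
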